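import Pool.Agent.H37.TC.Lv

/-!
# Lines over a closed frame, with a threshold: the levels of a cell
-/

set_option autoImplicit false

namespace Pool.TC37L

open Finset Real MvPolynomial
open Pool.Agent.H49.Ent Pool.Agent.H32.Dense Pool.STK
open Pool.STAT Pool.MIC.Frm Pool.FRM Pool.P4L

/-- The numbers of a place. -/
structure Nm (n y r a M i j : ℕ) : Prop where
  ya : y ≤ a
  i1 : 1 ≤ i
  ai : a ≤ i
  iM : i ≤ M
  j1 : r ≤ j
  jM : j ≤ M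

section

variable {D : NDat2} {n K J a₀ w₀ z M : ℕ} {lam gam : ℕ → ℝ} {κ C₁ : ℝ} {q : D.Ω → ℝ}
  {c y r a i j : ℕ}

theorem lev_s (hO : D.Ok2 n K J a₀ w₀ z M lam gam κ C₁ q)
    (hlam : ∀ l, 1 ≤ l → l ≤ n → lam l = 1) (h : Nm n y r a M i j) {l : ℕ} (l1 : 1 ≤ l)
    (ln : l ≤ n) {s : ℕ} (hs : i + s ≤ M) :
    |(D.g i j l : ℝ) - D.g (i + s) (j - r) l - (-(s : ℝ) + gam l * r) * z| ≤ 2 * C₁ * z := by
  have i1 := h.i1
  have iM := h.iM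
  have j1 := h.j1
  have jM := h.jM
  have ejr : ((j - r : ℕ) : ℝ) = j - r := by rw [Nat.cast_sub j1]
  have h := lv_ok hO hlam (i₁ := i) (j₁ := j) (i₂ := i + s) (j₂ := j - r) iM jM hs (by omega) l1 ln
  rw [ejr] at h
  push_cast at h
  rw [show (i : ℝ) - (i + s) + gam l * (j - (j - r)) = -(s : ℝ) + gam l * r by ring] at h
  exact h

theorem lev_1 (hO : D.Ok2 n K J a₀ w₀ z M lam gam κ C₁ q)
    (hlam : ∀ l, 1 ≤ l → l ≤ n → lam l = 1) (h : Nm n y r a M i j) {l : ℕ} (l1 : 1 ≤ l)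
    (ln : l ≤ n) :
    |(D.g i j l : ℝ) - D.g (i - 1) (j - r) l - (1 + gam l * r) * z| ≤ 2 * C₁ * z := by
  have i1 := h.i1
  have iM := h.iM
  have j1 := h.j1
  have jM := h.jM
  have ejr : ((j - r : ℕ) : ℝ) = j - r := by rw [Nat.cast_sub j1]
  have ei1 : ((i - 1 : ℕ) : ℝ) = i - 1 := by rw [Nat.cast_sub i1, Nat.cast_one]
  have h := lv_ok hO hlam (i₁ := i) (j₁ := j) (i₂ := i - 1) (j₂ := j - r) iM jM
    (by omega) (by omega) l1 ln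
  rw [ejr, ei1] at h
  rw [show (i : ℝ) - (i - 1) + gam l * (j - (j - r)) = 1 + gam l * r by ring] at h
  exact h

theorem lev_2 (hO : D.Ok2 n K J a₀ w₀ z M lam gam κ C₁ q)
    (hlam : ∀ l, 1 ≤ l → l ≤ n → lam l = 1) (h : Nm n y r a M i j) {l : ℕ} (l1 : 1 ≤ l)
    (ln : l ≤ n) :
    |(D.g i j l : ℝ) - D.g (i - a) j l - (a : ℝ) * z| ≤ 2 * C₁ * z := by
  have iM := h.iM
  have jM := h.jM
  have ai := h.ai
  have eia : ((i - a : ℕ) : ℝ) = i - a := by rw [Nat.cast_sub ai]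
  have h := lv_ok hO hlam (i₁ := i) (j₁ := j) (i₂ := i - a) (j₂ := j) iM jM
    (by omega) jM l1 ln
  rw [eia] at h
  rw [show (i : ℝ) - (i - a) + gam l * (j - j) = a by ring] at h
  exact h

theorem lev_0 (hO : D.Ok2 n K J a₀ w₀ z M lam gam κ C₁ q) (h : Nm n y r a M i j) :
    D.g (i - 1) (j - r) 0 + r * z = D.g i j 0 := by
  have j1 := h.j1
  rw [hO.g_zero, hO.g_zero, add_assoc, ← add_mul]
  congr 2
  omega

theorem lv2_of (hO : D.Ok2 n K J a₀ w₀ z M lam gam κ C₁ q)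
    (hlam : ∀ l, 1 ≤ l → l ≤ n → lam l = 1) (hC₁ : 0 ≤ C₁) (hc : 4 * C₁ + 1 ≤ c)
    (h : Nm n y r a M i j) :
    Lv2 n c y z r a (D.g i j) (D.g (i - 1) (j - r)) (D.g (i - a) j) := by
  have hz0 : (0 : ℝ) ≤ z := Nat.cast_nonneg z
  have hcz' : (4 * C₁ + 1) * z ≤ c * z := mul_le_mul_of_nonneg_right hc hz0
  have hCz : 0 ≤ C₁ * z := mul_nonneg hC₁ hz0
  refine ⟨lev_0 hO h, ?_, h.ya, fun l l1 ln => ?_, fun l l1 ln => ?_⟩
  · rw [hO.g_zero, hO.g_zero]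
  · have e1 := (abs_le.1 (lev_2 hO hlam h l1 ln)).1
    have e3 : (D.g (i - a) j l : ℝ) + a * z ≤ D.g i j l + c * z := by linarith
    exact_mod_cast e3
  · have e1 := (abs_le.1 (lev_2 hO hlam h l1 ln)).2
    have e3 : (D.g i j l : ℝ) ≤ D.g (i - a) j l + a * z + c * z := by linarith
    exact_mod_cast e3

theorem pa_of (hO : D.Ok2 n K J a₀ w₀ z M lam gam κ C₁ q)
    (hlam : ∀ l, 1 ≤ l → l ≤ n → lam l = 1) (hC₁ : 0 ≤ C₁) (hc : 4 * C₁ + 1 ≤ c)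
    (h : Nm n y r a M i j) {l k : ℕ} (l1 : 1 ≤ l) (ln : l ≤ n) (k1 : 1 ≤ k) (kn : k ≤ n)
    (hg : (gam l - gam k) * r + y ≤ 0) :
    Pa c y z (D.g i j) (D.g (i - 1) (j - r)) l k := by
  have hz0 : (0 : ℝ) ≤ z := Nat.cast_nonneg z
  have hcz' : (4 * C₁ + 1) * z ≤ c * z := mul_le_mul_of_nonneg_right hc hz0
  have hCz : 0 ≤ C₁ * z := mul_nonneg hC₁ hz0
  have e1 := (abs_le.1 (lev_1 hO hlam h l1 ln)).2
  have e2 := (abs_le.1 (lev_1 hO hlam h k1 kn)).1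
  have e3 : ((gam l - gam k) * r + y) * z ≤ 0 := mul_nonpos_of_nonpos_of_nonneg hg hz0
  have e5 : ((gam l - gam k) * r + y) * z = (gam l * r) * z - (gam k * r) * z + y * z := by ring
  have e4 : (D.g (i - 1) (j - r) k : ℝ) + D.g i j l + y * z ≤
      D.g i j k + D.g (i - 1) (j - r) l + c * z := by linarith
  unfold Pa
  exact_mod_cast e4

theorem pb_of (hO : D.Ok2 n K J a₀ w₀ z M lam gam κ C₁ q)
    (hlam : ∀ l, 1 ≤ l → l ≤ n → lam l = 1) (hC₁ : 0 ≤ C₁) (hc : 4 * C₁ + 1 ≤ c)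
    (h : Nm n y r a M i j) {l k : ℕ} (l1 : 1 ≤ l) (ln : l ≤ n) (k1 : 1 ≤ k) (kn : k ≤ n)
    (hg : (gam l - gam k - 1) * r + y ≤ 0) :
    Pb2 c y z (D.g i j) (D.g (i - 1) (j - r)) l k := by
  have hz0 : (0 : ℝ) ≤ z := Nat.cast_nonneg z
  have hcz' : (4 * C₁ + 1) * z ≤ c * z := mul_le_mul_of_nonneg_right hc hz0
  have hCz : 0 ≤ C₁ * z := mul_nonneg hC₁ hz0
  have e1 := (abs_le.1 (lev_1 hO hlam h l1 ln)).2
  have e2 := (abs_le.1 (lev_1 hO hlam h k1 kn)).1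
  have e3 : ((gam l - gam k - 1) * r + y) * z ≤ 0 := mul_nonpos_of_nonpos_of_nonneg hg hz0
  have e5 : ((gam l - gam k - 1) * r + y) * z =
    (gam l * r) * z - (gam k * r) * z - r * z + y * z := by ring
  have e6 : (D.g (i - 1) (j - r) 0 : ℝ) + r * z = D.g i j 0 := by
    exact_mod_cast lev_0 hO h
  have e4 : (D.g (i - 1) (j - r) k : ℝ) + D.g (i - 1) (j - r) 0 + D.g i j l + y * z ≤
      D.g i j k + D.g i j 0 + D.g (i - 1) (j - r) l + c * z := by linarith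
  unfold Pb2
  exact_mod_cast e4

/-- The longer window. -/
theorem far_of (hO : D.Ok2 n K J a₀ w₀ z M lam gam κ C₁ q)
    (hlam : ∀ l, 1 ≤ l → l ≤ n → lam l = 1) (hC₁ : 0 ≤ C₁) (hc : 4 * C₁ + 1 ≤ c)
    (h : Nm n y r a M i j) {l : ℕ} (l1 : 1 ≤ l) (ln : l ≤ n) (d : ℕ)
    (hg : (gam l - (d + 1)) * r + y ≤ 0) :
    D.g i j l + y * z ≤ D.g (i - 1) (j - r) l + (d + 1) * (r * z) + c * z := by
  have hz0 : (0 : ℝ) ≤ z := Nat.cast_nonneg z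
  have hcz' : (4 * C₁ + 1) * z ≤ c * z := mul_le_mul_of_nonneg_right hc hz0
  have hCz : 0 ≤ C₁ * z := mul_nonneg hC₁ hz0
  have e1 := (abs_le.1 (lev_1 hO hlam h l1 ln)).2
  have e3 : ((gam l - (d + 1)) * r + y) * z ≤ 0 := mul_nonpos_of_nonpos_of_nonneg hg hz0
  have e5 : ((gam l - (d + 1)) * r + y) * z = (gam l * r) * z - (d + 1) * (r * z) + y * z := by
    ring
  have e4 : (D.g i j l : ℝ) + y * z ≤
      D.g (i - 1) (j - r) l + (d + 1) * (r * z) + c * z := by linarith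
  exact_mod_cast e4

/-- A place `(i + s, j - r)`: small coordinates. -/
theorem at_of (hO : D.Ok2 n K J a₀ w₀ z M lam gam κ C₁ q)
    (hlam : ∀ l, 1 ≤ l → l ≤ n → lam l = 1) (hC₁ : 0 ≤ C₁) (hc : 4 * C₁ + 1 ≤ c)
    (h : Nm n y r a M i j) {l : ℕ} (l1 : 1 ≤ l) (ln : l ≤ n) {s : ℕ} (hs : i + s ≤ M)
    (hg : gam l * r + y ≤ s) :
    D.g i j l + y * z ≤ D.g (i + s) (j - r) l + c * z := by
  have hz0 : (0 : ℝ) ≤ z := Nat.cast_nonneg z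
  have hcz' : (4 * C₁ + 1) * z ≤ c * z := mul_le_mul_of_nonneg_right hc hz0
  have hCz : 0 ≤ C₁ * z := mul_nonneg hC₁ hz0
  have e1 := (abs_le.1 (lev_s hO hlam h l1 ln hs)).2
  have e2 : (gam l * r + y) * z ≤ s * z := mul_le_mul_of_nonneg_right hg hz0
  have e3 : (D.g i j l : ℝ) + y * z ≤ D.g (i + s) (j - r) l + c * z := by linarith
  exact_mod_cast e3

/-- A place `(i + s, j - r)`: velocities. -/
theorem vl_of (hO : D.Ok2 n K J a₀ w₀ z M lam gam κ C₁ q)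
    (hlam : ∀ l, 1 ≤ l → l ≤ n → lam l = 1) (hC₁ : 0 ≤ C₁) (hc : 4 * C₁ + 1 ≤ c)
    (h : Nm n y r a M i j) {l : ℕ} (l1 : 1 ≤ l) (ln : l ≤ n) {s : ℕ} (hs : i + s ≤ M)
    (hg : (gam l - 1) * r + y ≤ s) :
    D.g i j l + y * z ≤ D.g (i + s) (j - r) l + r * z + c * z := by
  have hz0 : (0 : ℝ) ≤ z := Nat.cast_nonneg z
  have hcz' : (4 * C₁ + 1) * z ≤ c * z := mul_le_mul_of_nonneg_right hc hz0
  have hCz : 0 ≤ C₁ * z := mul_nonneg hC₁ hz0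
  have e1 := (abs_le.1 (lev_s hO hlam h l1 ln hs)).2
  have e2 : ((gam l - 1) * r + y) * z ≤ s * z := mul_le_mul_of_nonneg_right hg hz0
  have e5 : ((gam l - 1) * r + y) * z = (gam l * r) * z - r * z + y * z := by ring
  have e3 : (D.g i j l : ℝ) + y * z ≤ D.g (i + s) (j - r) l + r * z + c * z := by linarith
  exact_mod_cast e3

end

end Pool.TC37L
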