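import Pool.Agent.H37.TC.Shf
import Pool.Agent.H37.TC.Lvo
import Pool.Agent.H25.P4.Lin

/-!
# The shifted frame is a closed frame

`frp_shf`: `P` a closed frame at `(i₀, j)`, `P'` a closed frame at `(i, j)`, `i₀ ≤ i`: then
`shf n P P'` (= `P` + functions of the time) is a closed frame at `(i, j)`.
-/

set_option autoImplicit false

namespace Pool.TC37F

open Finset Real MvPolynomial
open Pool.Agent.H49.Ent Pool.Agent.H32.Dense Pool.STK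
open Pool.STAT Pool.MIC.Frm Pool.FRM Pool.P4L
open Pool.P4 (FrP)

section

variable {D : NDat2} {n K J a₀ w₀ z M : ℕ} {lam gam : ℕ → ℝ} {κ C₁ : ℝ} {q : D.Ω → ℝ}

/-- Two radii, one window. -/
theorem lev_two (hO : D.Ok2 n K J a₀ w₀ z M lam gam κ C₁ q)
    (hlam : ∀ l, 1 ≤ l → l ≤ n → lam l = 1) {c : ℕ} (hc : 2 * C₁ ≤ c) {ia ib j : ℕ}
    (hab : ia ≤ ib) (hb : ib ≤ M) (hj : j ≤ M) {l : ℕ} (l1 : 1 ≤ l) (ln : l ≤ n) :
    D.g ia j l + (ib - ia) * z ≤ D.g ib j l + c * z ∧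
      D.g ib j l ≤ D.g ia j l + (ib - ia) * z + c * z := by
  have hz0 : (0 : ℝ) ≤ z := Nat.cast_nonneg z
  have h := lv_ok hO hlam (i₁ := ib) (j₁ := j) (i₂ := ia) (j₂ := j) hb hj (hab.trans hb) hj l1 ln
  rw [sub_self, mul_zero, add_zero] at h
  have e : ((ib - ia : ℕ) : ℝ) = (ib : ℝ) - ia := by rw [Nat.cast_sub hab]
  rw [← e] at h
  have h1 := abs_le.1 h
  have hcz : 2 * C₁ * z ≤ c * z := mul_le_mul_of_nonneg_right hc hz0
  constructor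
  · have e3 : (D.g ia j l : ℝ) + (ib - ia : ℕ) * z ≤ D.g ib j l + c * z := by linarith [h1.1]
    exact_mod_cast e3
  · have e3 : (D.g ib j l : ℝ) ≤ D.g ia j l + (ib - ia : ℕ) * z + c * z := by linarith [h1.2]
    exact_mod_cast e3

end

/-- **One window.** -/
theorem near_win (n K c : ℕ) : ∃ (C : ℝ) (N : ℕ), 1 ≤ C ∧ ∀ (D : NDat2) (K₀ J a₀ w₀ z M : ℕ)
    (lam gam : ℕ → ℝ) (κ C₁ : ℝ) (q : D.Ω → ℝ) (ia ib j : ℕ) (P P' : ℕ → PN) (ω : D.Ω) (B : ℝ),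
    K₀ ≤ K → D.Ok2 n K₀ J a₀ w₀ z M lam gam κ C₁ q → (∀ l, 1 ≤ l → l ≤ n → lam l = 1) →
    2 * C₁ ≤ c → ia ≤ ib → ib ≤ M → j ≤ M → TriN P → TriN P' → (∀ l, (P l).totalDegree ≤ K) →
    (∀ l, (P' l).totalDegree ≤ K) → 1 ≤ B → (2 : ℝ) ^ (c * z) ≤ B →
    (∀ l ≤ n, nrm (D.g ia j) (1 / 2) (chr P (D.Φ ia j ω l - P l)) ≤ B / 2 ^ D.g ia j l) →
    (∀ l ≤ n, nrm (D.g ia j) (1 / 2) (chr P' (D.Φ ia j ω l - P' l)) ≤ B / 2 ^ D.g ia j l) →
    (∀ l ≤ n, nrm (D.g ib j) (1 / 2) (chr P' (D.Φ ib j ω l - P' l)) ≤ B / 2 ^ D.g ib j l) →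
    ∀ l ≤ n, nrm (D.g ib j) (1 / 2) (chr (shf n P P') (D.Φ ib j ω l - shf n P P' l)) ≤
      C * B ^ N / 2 ^ D.g ib j l := by
  obtain ⟨Cs, Ns, hCs, hs⟩ := sys_near K (n + 1)
  obtain ⟨K₂, hK₂⟩ : ∃ K₂, K₂ = K + K * (K + 1) ^ n := ⟨_, rfl⟩
  obtain ⟨Ct, Nt, hCt, ht⟩ := near_tr K₂ (n + 1)
  obtain ⟨N₁, hN₁⟩ : ∃ N₁, N₁ = K * (K + 1) ^ n + 1 := ⟨_, rfl⟩
  refine ⟨Ct * Cs ^ Nt, (Ns + N₁ + 1) * Nt, by
    have : 1 ≤ Cs ^ Nt := one_le_pow₀ hCs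
    nlinarith, ?_⟩
  intro D K₀ J a₀ w₀ z M lam gam κ C₁ q ia ib j P P' ω B hK0 hO hlam hc hab hb hj tP tP' dP dP'
    hB hcB hA hA' hB'
  have hKK : K ≤ K₂ := by rw [hK₂]; exact Nat.le_add_right _ _
  -- the difference at the base place
  have h1 : ∀ l ≤ n, nrm (D.g ia j) (1 / 2) (chr P' (P l - P' l)) ≤
      Cs * B ^ Ns / 2 ^ D.g ia j l := fun l hl =>
    hs (D.g ia j) (D.Φ ia j ω) P P' B (hO.P_tri ia j _) tP tP'
      (fun l => (hO.P_deg ia j _ l).trans hK0) dP dP' hB (fun l hl => hA l (by omega))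
      (fun l hl => hA' l (by omega)) l (by omega)
  have hS0 : 0 ≤ Cs * B ^ Ns := by positivity
  -- the shifted frame at the target place
  have h2 : ∀ l ≤ n, nrm (D.g ib j) (1 / 2) (chr P' (shf n P P' l - P' l)) ≤
      Cs * B ^ Ns * 2 ^ (N₁ * (c * z)) / 2 ^ D.g ib j l := by
    intro l hl
    rw [hN₁]
    refine nrm_shf_far tP tP' dP dP' (s := (ib - ia) * z) hl ?_ (fun k k1 kn =>
      (lev_two hO hlam hc hab hb hj k1 kn).1) ?_ hS0 (h1 l hl)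
    · rw [hO.g_zero, hO.g_zero]
    · rcases Nat.eq_zero_or_pos l with h0 | h0
      · rw [h0, hO.g_zero, hO.g_zero]
        omega
      · exact (lev_two hO hlam hc hab hb hj h0 hl).2
  obtain ⟨B₂, hB₂⟩ : ∃ B₂, B₂ = Cs * B ^ (Ns + N₁ + 1) := ⟨_, rfl⟩
  have p1 : ∀ m : ℕ, 1 ≤ B ^ m := fun m => one_le_pow₀ hB
  have b1 : Cs * B ^ Ns * 2 ^ (N₁ * (c * z)) ≤ B₂ := by
    have e1 : (2 : ℝ) ^ (N₁ * (c * z)) ≤ B ^ N₁ := by
      rw [mul_comm N₁, pow_mul]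
      exact pow_le_pow_left₀ (by positivity) hcB _
    rw [hB₂]
    calc Cs * B ^ Ns * 2 ^ (N₁ * (c * z)) ≤ Cs * B ^ Ns * B ^ N₁ :=
          mul_le_mul_of_nonneg_left e1 hS0
      _ = Cs * B ^ (Ns + N₁) := by rw [pow_add]; ring
      _ ≤ _ := mul_le_mul_of_nonneg_left (pow_le_pow_right₀ hB (Nat.le_succ _)) (by linarith)
  have b2 : B ≤ B₂ := by
    rw [hB₂]
    calc B = 1 * B ^ 1 := by ring
      _ ≤ Cs * B ^ (Ns + N₁ + 1) := mul_le_mul hCs (pow_le_pow_right₀ hB (by omega))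
        (by positivity) (by linarith)
  have b3 : 1 ≤ B₂ := hB.trans b2
  intro l hl
  have h3 := ht (D.g ib j) (D.Φ ib j ω) P' (shf n P P') B₂ (hO.P_tri ib j _) tP'
    (shf_tri tP tP') (fun l => (hO.P_deg ib j _ l).trans (hK0.trans hKK))
    (fun l => (dP' l).trans hKK) (fun l => by rw [hK₂]; exact shf_deg tP tP' dP dP' l) b3
    (fun l hl => (hB' l (by omega)).trans (div_le_div_of_nonneg_right b2 (by positivity)))
    (fun l hl => (h2 l (by omega)).trans (div_le_div_of_nonneg_right b1 (by positivity)))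
    l (by omega)
  refine h3.trans (le_of_eq ?_)
  rw [hB₂, mul_pow, ← pow_mul]
  ring

/-- **The shifted frame is a closed frame.** -/
theorem frp_shf (n K K' : ℕ) (lam : ℕ → ℝ) (C₁ C : ℝ) (hC₁ : 1 ≤ C₁) (hC : 0 ≤ C)
    (hlam : ∀ l, 1 ≤ l → l ≤ n → lam l = 1) : ∃ (K'' : ℕ) (C' : ℝ), K' ≤ K'' ∧ C ≤ C' ∧
    ∀ (D : NDat2) (J a₀ w₀ z M i₀ i j r : ℕ) (gam : ℕ → ℝ) (κ : ℝ) (q : D.Ω → ℝ), 1 ≤ z →
      D.Ok2 n K J a₀ w₀ z M lam gam κ C₁ q → 1 ≤ i₀ → i₀ ≤ i → i ≤ M → j ≤ M →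
      ∀ (P P' : ℕ → PN) (ω : D.Ω), FrP D n K' z i₀ j r C P ω → FrP D n K' z i j r C P' ω →
        FrP D n K'' z i j r C' (shf n P P') ω := by
  obtain ⟨K₂, hK₂⟩ : ∃ K₂, K₂ = K + K' := ⟨_, rfl⟩
  obtain ⟨c, hc⟩ := exists_nat_ge (2 * C₁)
  obtain ⟨Cw, Nw, hCw, hw⟩ := near_win n K₂ c
  obtain ⟨C', hC'⟩ : ∃ C' : ℝ, C' = Cw + (C + c) * Nw + C := ⟨_, rfl⟩
  have hc0 : (0 : ℝ) ≤ c := Nat.cast_nonneg c
  refine ⟨K₂ + K₂ * (K₂ + 1) ^ n, C', by rw [hK₂]; omega, by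
    rw [hC']
    have : 0 ≤ (C + c) * (Nw : ℝ) := by positivity
    linarith, ?_⟩
  intro D J a₀ w₀ z M i₀ i j r gam κ q hz hO hi0 hii hi hj P P' ω hP hP'
  have hzr : (1 : ℝ) ≤ z := by exact_mod_cast hz
  have hz0 : (0 : ℝ) ≤ z := by linarith
  obtain ⟨B, hB⟩ : ∃ B : ℝ, B = exp ((C + c) * z) := ⟨_, rfl⟩
  have hB1 : 1 ≤ B := by
    rw [hB]
    exact one_le_exp (by positivity)
  have hBC : exp (C * z) ≤ B := by
    rw [hB]
    exact exp_le_exp.2 (mul_le_mul_of_nonneg_right (by linarith) hz0)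
  have hBc : (2 : ℝ) ^ (c * z) ≤ B := by
    refine (two_pow_le c z).trans ?_
    rw [hB]
    exact exp_le_exp.2 (mul_le_mul_of_nonneg_right (by linarith) hz0)
  have hfin : Cw * B ^ Nw ≤ exp (C' * z) := by
    have e1 : Cw ≤ exp (Cw * z) := by
      calc Cw ≤ Cw + 1 := by linarith
        _ ≤ exp Cw := add_one_le_exp _
        _ ≤ exp (Cw * z) := exp_le_exp.2 (le_mul_of_one_le_right (by linarith) hzr)
    have e2 : B ^ Nw = exp ((C + c) * Nw * z) := by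
      rw [hB, ← exp_nat_mul]
      congr 1
      ring
    have e3 : exp (C' * z) = exp (Cw * z) * exp ((C + c) * Nw * z) * exp (C * z) := by
      rw [hC', ← exp_add, ← exp_add]
      congr 1
      ring
    rw [e2, e3]
    have e4 : 1 ≤ exp (C * z) := one_le_exp (by positivity)
    calc Cw * exp ((C + c) * Nw * z) ≤ exp (Cw * z) * exp ((C + c) * Nw * z) :=
          mul_le_mul_of_nonneg_right e1 (exp_pos _).le
      _ ≤ _ := le_mul_of_one_le_right (by positivity) e4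
  have dK : K ≤ K₂ := by omega
  have dP : ∀ l, (P l).totalDegree ≤ K₂ := fun l => (hP.deg l).trans (by omega)
  have dP' : ∀ l, (P' l).totalDegree ≤ K₂ := fun l => (hP'.deg l).trans (by omega)
  have up : ∀ {x : ℝ} {g : ℕ}, x ≤ exp (C * z) / 2 ^ g → x ≤ B / 2 ^ g := fun h =>
    h.trans (div_le_div_of_nonneg_right hBC (by positivity))
  refine ⟨shf_tri hP.tri hP'.tri, fun l => shf_deg hP.tri hP'.tri dP dP' l,
    fun i₁ hi₁ l hl => ?_⟩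
  obtain ⟨ia, h1, h2, h3, h4⟩ : ∃ ia, ia ≤ i₁ ∧ ia ≤ i₀ ∧ ia - 1 ≤ i₁ - 1 ∧ ia ≤ i := by
    rcases le_total i₁ i₀ with h | h
    · exact ⟨i₁, le_rfl, h, le_rfl, hi₁⟩
    · exact ⟨i₀, h, le_rfl, by omega, hii⟩
  constructor
  · refine (hw D K J a₀ w₀ z M lam gam κ C₁ q ia i₁ j P P' ω B dK hO hlam hc h1 (by omega) hj
      hP.tri hP'.tri dP dP' hB1 hBc (fun l hl => up (hP.near ia h2 l hl).1)
      (fun l hl => up (hP'.near ia h4 l hl).1) (fun l hl => up (hP'.near i₁ hi₁ l hl).1)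
      l hl).trans ?_
    exact div_le_div_of_nonneg_right hfin (by positivity)
  · refine (hw D K J a₀ w₀ z M lam gam κ C₁ q (ia - 1) (i₁ - 1) (j - r) P P' ω B dK hO hlam hc h3
      (by omega) (by omega) hP.tri hP'.tri dP dP' hB1 hBc (fun l hl => up (hP.near ia h2 l hl).2)
      (fun l hl => up (hP'.near ia h4 l hl).2) (fun l hl => up (hP'.near i₁ hi₁ l hl).2)
      l hl).trans ?_
    exact div_le_div_of_nonneg_right hfin (by positivity)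

end Pool.TC37F
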