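import Pool.Agent.H37.TC.Plm

/-!
# Interpolation at the nodes `m / d`
-/

set_option autoImplicit false

namespace Pool.TC37

open Finset Real Polynomial
open Pool.TT37 (lg lg_deg lg_cf lg_eval ip ip_deg ip_cf)

/-- The interpolation polynomial. -/
noncomputable def pt (d : ℕ) (v : ℕ → ℝ) : ℝ[X] :=
  Lagrange.interpolate (Finset.range (d + 1)) (fun m : ℕ => (m : ℝ) / d) v

theorem nodes_inj {d : ℕ} (hd : 1 ≤ d) :
    Set.InjOn (fun m : ℕ => (m : ℝ) / d) (Finset.range (d + 1) : Set ℕ) := by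
  intro a _ b _ h
  have hd0 : (d : ℝ) ≠ 0 := by
    have : (0 : ℝ) < d := by exact_mod_cast hd
    exact this.ne'
  have h1 : (a : ℝ) / d = b / d := h
  rw [div_left_inj' hd0] at h1
  exact_mod_cast h1

theorem pt_deg {d : ℕ} (hd : 1 ≤ d) (v : ℕ → ℝ) : (pt d v).natDegree ≤ d := by
  have h : (pt d v).degree < ((d + 1 : ℕ) : WithBot ℕ) := by
    have h := Lagrange.degree_interpolate_lt v (nodes_inj hd)
    rwa [Finset.card_range] at h
  by_cases h0 : pt d v = 0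
  · rw [h0, Polynomial.natDegree_zero]
    exact Nat.zero_le _
  · rw [Polynomial.degree_eq_natDegree h0] at h
    have : (pt d v).natDegree < d + 1 := by exact_mod_cast h
    omega

theorem pt_node {d : ℕ} (hd : 1 ≤ d) (v : ℕ → ℝ) {m : ℕ} (hm : m ≤ d) :
    (pt d v).eval ((m : ℝ) / d) = v m :=
  Lagrange.eval_interpolate_at_node (v := fun m : ℕ => (m : ℝ) / d) v (nodes_inj hd)
    (Finset.mem_range.2 (by omega))

/-- The polynomial as a sum over the nodes. -/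
theorem pt_ip {d : ℕ} (hd : 1 ≤ d) (v : ℕ → ℝ) : pt d v = ip (nd d) (fun j => v j) := by
  have h := ip_rep (nd d) (nd_inj d) (pt d v) (pt_deg hd v)
  rw [← h]
  congr 1
  funext j
  exact pt_node hd v (Nat.lt_succ_iff.1 j.2)

theorem pt_eval {d : ℕ} (hd : 1 ≤ d) (v : ℕ → ℝ) (x : ℝ) :
    (pt d v).eval x = ∑ j : Fin (d + 1), (lg (nd d) j).eval x * v j := by
  rw [pt_ip hd]
  unfold ip
  rw [Polynomial.eval_finsetSum]
  refine Finset.sum_congr rfl fun j _ => ?_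
  rw [eval_mul, eval_C, mul_comm]

/-- The coefficients. -/
theorem pt_cf {d : ℕ} (hd : 1 ≤ d) (v : ℕ → ℝ) {A : ℝ} (hv : ∀ m ≤ d, |v m| ≤ A) (s : ℕ) :
    |(pt d v).coeff s| ≤ Lc d * A := by
  rw [pt_ip hd]
  have hd0 : (0 : ℝ) < (d : ℝ) + 1 := by positivity
  have h := ip_cf (nd d) (fun j => v j) (s := 1 / ((d : ℝ) + 1)) (A := A) (by positivity)
    (by rw [div_le_one hd0]; linarith [show (0 : ℝ) ≤ d from Nat.cast_nonneg d])
    (fun k => by rw [abs_of_nonneg (nd_nn d k)]; exact nd_le d k)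
    (fun j k hk => nd_sep d hk) (fun j => hv j (Nat.lt_succ_iff.1 j.2)) s
  refine h.trans (le_of_eq ?_)
  unfold Lc
  have h3 : (2 / (1 / ((d : ℝ) + 1))) = 2 * ((d : ℝ) + 1) := by field_simp
  rw [h3]
  ring

theorem pt_sub (d : ℕ) (v v' : ℕ → ℝ) : pt d v - pt d v' = pt d (fun m => v m - v' m) := by
  unfold pt
  rw [← map_sub]
  rfl

theorem pt_const {d : ℕ} (hd : 1 ≤ d) (a : ℝ) : pt d (fun _ => a) = C a := by
  rw [pt_ip hd]
  have h := ip_rep (nd d) (nd_inj d) (C a) (by rw [natDegree_C]; exact Nat.zero_le _)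
  rw [← h]
  congr 1
  funext j
  rw [eval_C]

/-- The coefficients which are not constant do not see constants. -/
theorem pt_cf_sub {d : ℕ} (hd : 1 ≤ d) (v : ℕ → ℝ) (a : ℝ) {s : ℕ} (hs : 1 ≤ s) :
    (pt d v).coeff s = (pt d (fun m => v m - a)).coeff s := by
  have h : pt d (fun m => v m - a) = pt d v - C a := by
    rw [← pt_const hd a, pt_sub]
  rw [h, coeff_sub, coeff_C, if_neg (by omega), sub_zero]

theorem pt_cf0 {d : ℕ} (hd : 1 ≤ d) (v : ℕ → ℝ) : (pt d v).coeff 0 = v 0 := by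
  rw [Polynomial.coeff_zero_eq_eval_zero]
  have h := pt_node hd v (Nat.zero_le d)
  rwa [Nat.cast_zero, zero_div] at h

theorem pt_sum {d : ℕ} (hd : 1 ≤ d) (v : ℕ → ℝ) (x : ℝ) :
    (pt d v).eval x = v 0 + ∑ s ∈ Finset.Icc 1 d, x ^ s * (pt d v).coeff s := by
  rw [Polynomial.eval_eq_sum_range' (Nat.lt_succ_of_le (pt_deg hd v)),
    Finset.sum_range_succ', pow_zero, mul_one, pt_cf0 hd, add_comm]
  congr 1
  rw [Finset.sum_bij (fun (m : ℕ) _ => m + 1)]
  · intro m hm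
    rw [Finset.mem_Icc]
    have := Finset.mem_range.1 hm
    omega
  · intro a _ b _ h
    omega
  · intro b hb
    rw [Finset.mem_Icc] at hb
    exact ⟨b - 1, Finset.mem_range.2 (by omega), by omega⟩
  · intro m _
    rw [mul_comm]

/-- Two value vectors: the coefficients which are not constant. -/
theorem pt_cf_dif {d : ℕ} (hd : 1 ≤ d) (v v' : ℕ → ℝ) {A : ℝ}
    (hv : ∀ m ≤ d, |(v m - v 0) - (v' m - v' 0)| ≤ A) {s : ℕ} (hs : 1 ≤ s) :
    |(pt d v).coeff s - (pt d v').coeff s| ≤ Lc d * A := by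
  rw [pt_cf_sub hd v (v 0) hs, pt_cf_sub hd v' (v' 0) hs, ← coeff_sub, pt_sub]
  exact pt_cf hd _ hv s

/-- Values which are nearly constant. -/
theorem pt_cf_one {d : ℕ} (hd : 1 ≤ d) (v : ℕ → ℝ) {A : ℝ} (hv : ∀ m ≤ d, |v m - v 0| ≤ A)
    {s : ℕ} (hs : 1 ≤ s) : |(pt d v).coeff s| ≤ Lc d * A := by
  rw [pt_cf_sub hd v (v 0) hs]
  exact pt_cf hd _ hv s

end Pool.TC37
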