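import Pool.Agent.H37.TC.One

/-!
# Lines over a closed frame, with a threshold: the statement (LIN)
-/

set_option autoImplicit false

namespace Pool.TC37L

open Finset Real MvPolynomial
open Pool.Agent.H49.Ent Pool.Agent.H32.Dense Pool.STK
open Pool.STAT Pool.MIC.Frm Pool.FRM Pool.P4L
open Pool.P4 (t0 rt pp PthC FraC bb ze zt z0 GoodS FrP)
open Pool.TC (zx bs pth sl gr sl0 sl1 Plc Stp)
open Pool.TC37 (pt nd Lc)
open Pool.TT37 (lg)

/-- Two value vectors. -/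
theorem bs_dif {D : NDat2} {J w i j r d : ℕ} {P : ℕ → PN} {ω ω' : D.Ω} {l : ℕ} (hd : 1 ≤ d)
    {A : ℝ} (h : ∀ x : ℝ, 0 ≤ x → x ≤ 1 →
      |(zx D J w i j r (fun _ => P) x ω l - zx D J w i j r (fun _ => P) 0 ω l) -
        (zx D J w i j r (fun _ => P) x ω' l - zx D J w i j r (fun _ => P) 0 ω' l)| ≤ A)
    {s : ℕ} (hs : 1 ≤ s) :
    |bs D J w i j r d (fun _ => P) s ω l - bs D J w i j r d (fun _ => P) s ω' l| ≤ Lc d * A := by
  rw [bs_eq, bs_eq]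
  refine Pool.TC37.pt_cf_dif hd _ _ (fun m hm => ?_) hs
  beta_reduce
  rw [Nat.cast_zero, zero_div]
  refine h _ (by positivity) ?_
  have hd0 : (0 : ℝ) < d := by exact_mod_cast hd
  rw [div_le_one hd0]
  exact_mod_cast hm

theorem bs_cst {D : NDat2} {J w i j r d : ℕ} {P : ℕ → PN} {ω : D.Ω} {l : ℕ} (hd : 1 ≤ d)
    {A : ℝ} (h : ∀ x : ℝ, 0 ≤ x → x ≤ 1 →
      |zx D J w i j r (fun _ => P) x ω l - zx D J w i j r (fun _ => P) 0 ω l| ≤ A)
    {s : ℕ} (hs : 1 ≤ s) :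
    |bs D J w i j r d (fun _ => P) s ω l| ≤ Lc d * A := by
  rw [bs_eq]
  refine Pool.TC37.pt_cf_one hd _ (fun m hm => ?_) hs
  beta_reduce
  rw [Nat.cast_zero, zero_div]
  refine h _ (by positivity) ?_
  have hd0 : (0 : ℝ) < d := by exact_mod_cast hd
  rw [div_le_one hd0]
  exact_mod_cast hm

theorem TayC.mono {N : ℕ} {C C' : ℝ} (h : TayC N C) (hC : C ≤ C') : TayC N C' := by
  intro Q t₀ k ρ A h1 h2 h3 h4 h5 s s0 s1
  have hA : 0 ≤ A := (abs_nonneg _).trans (h5 t₀ le_rfl (by linarith))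
  obtain ⟨e1, e2⟩ := h Q t₀ k ρ A h1 h2 h3 h4 h5 s s0 s1
  refine ⟨e1.trans ?_, e2.trans ?_⟩
  · exact mul_le_mul_of_nonneg_right (mul_le_mul_of_nonneg_right hC hA) (by positivity)
  · exact mul_le_mul_of_nonneg_right (mul_le_mul_of_nonneg_right hC hA) (by positivity)

theorem TayD.mono {N d : ℕ} {C C' : ℝ} (h : TayD N d C) (hC : C ≤ C') : TayD N d C' := by
  intro Q t₀ k ρ A h1 h2 h3 h4 h5 s s0 s1
  have hA : 0 ≤ A := (abs_nonneg _).trans (h5 t₀ le_rfl (by linarith))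
  refine (h Q t₀ k ρ A h1 h2 h3 h4 h5 s s0 s1).trans ?_
  exact mul_le_mul_of_nonneg_right (mul_le_mul_of_nonneg_right hC hA) (by positivity)

/-- The conclusion, for two samples. -/
structure TwoC (D : NDat2) (n J : ℕ) (w i j r r2 r' r'' y d z : ℕ) (th : ℝ) (gam : ℕ → ℝ)
    (C' : ℝ) (P : ℕ → PN) (ω ω' : D.Ω) : Prop where
  l2 : D.c (i + r2) (j - r) ω = D.c (i + r2) (j - r) ω' →
    (∀ l, sl0 th gam n l → |z0 D J w i j r (fun _ => P) ω l -
      z0 D J w i j r (fun _ => P) ω' l| ≤ exp (C' * z) / 2 ^ (y * z)) ∧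
    ∀ l, sl1 th gam n l → ∀ s, 1 ≤ s → s ≤ d →
      |bs D J w i j r d (fun _ => P) s ω l - bs D J w i j r d (fun _ => P) s ω' l| ≤
        exp (C' * z) / 2 ^ (y * z)
  l1 : D.c (i + r') (j - r) ω = D.c (i + r') (j - r) ω' → ∀ l, sl th gam n l →
    |z0 D J w i j r (fun _ => P) ω l - z0 D J w i j r (fun _ => P) ω' l| ≤
      exp (C' * z) / 2 ^ (y * z) ∧
    ∀ s, 1 ≤ s → s ≤ d →
      |bs D J w i j r d (fun _ => P) s ω l - bs D J w i j r d (fun _ => P) s ω' l| ≤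
        exp (C' * z) / 2 ^ (y * z)
  lg : (∀ l, gr th gam n l → (gam l - 1) * r + y ≤ r') →
    D.c (i + r') (j - r) ω = D.c (i + r') (j - r) ω' → ∀ l, gr th gam n l →
    ∀ s, 1 ≤ s → s ≤ d →
      |bs D J w i j r d (fun _ => P) s ω l - bs D J w i j r d (fun _ => P) s ω' l| ≤
        exp (C' * z) / 2 ^ (y * z)
  l3 : D.c (i + r'') (j - r) ω = D.c (i + r'') (j - r) ω' → ∀ l, 1 ≤ l → l ≤ n →
    |z0 D J w i j r (fun _ => P) ω l - z0 D J w i j r (fun _ => P) ω' l| ≤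
      exp (C' * z) / 2 ^ (y * z) ∧
    ∀ s, 1 ≤ s → s ≤ d →
      |bs D J w i j r d (fun _ => P) s ω l - bs D J w i j r d (fun _ => P) s ω' l| ≤
        exp (C' * z) / 2 ^ (y * z)

/-- The conclusion, for one sample. -/
structure OneC (D : NDat2) (n J : ℕ) (w i j r y d z : ℕ) (th : ℝ) (gam : ℕ → ℝ)
    (C' : ℝ) (P : ℕ → PN) (ω : D.Ω) : Prop where
  bd : ∀ l, 1 ≤ l → l ≤ n → |z0 D J w i j r (fun _ => P) ω l| ≤ exp (C' * z) ∧
    ∀ s, 1 ≤ s → s ≤ d → |bs D J w i j r d (fun _ => P) s ω l| ≤ exp (C' * z)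
  s0 : ∀ l, sl0 th gam n l →
    |ze D i j r (fun _ => P) ω l - z0 D J w i j r (fun _ => P) ω l| ≤
      exp (C' * z) / 2 ^ (y * z) ∧
    ∀ s, 1 ≤ s → s ≤ d → |bs D J w i j r d (fun _ => P) s ω l| ≤
      exp (C' * z) / 2 ^ (y * z)
  pth : ∀ l, 1 ≤ l → l ≤ n →
    |ze D i j r (fun _ => P) ω l - (z0 D J w i j r (fun _ => P) ω l +
      ∑ s ∈ Finset.Icc 1 d, rt D J w ω ^ s * bs D J w i j r d (fun _ => P) s ω l)| ≤
        exp (C' * z) / 2 ^ (y * z) ∧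
    ∀ x : ℝ, 0 ≤ x → x ≤ 1 →
      |zx D J w i j r (fun _ => P) x ω l - (z0 D J w i j r (fun _ => P) ω l +
        ∑ s ∈ Finset.Icc 1 d, x ^ s * bs D J w i j r d (fun _ => P) s ω l)| ≤
          exp (C' * z) / 2 ^ (y * z)

/-- **(LIN)**, with the velocities of the group at `L`. -/
theorem lin_all : ∀ (n d K K' : ℕ) (th : ℝ) (lam gam : ℕ → ℝ) (C₁ C : ℝ), 1 ≤ n → 1 ≤ C₁ →
    0 ≤ C → (∀ l, 1 ≤ l → l ≤ n → lam l = 1) → (∀ l, 0 ≤ gam l) → ∃ C' : ℝ, 1 ≤ C' ∧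
    ∀ (y r r2 r' r'' a M : ℕ), ∃ z₀ : ℕ, ∀ (J a₀ w₀ z i j : ℕ) (D : NDat2) (q : D.Ω → ℝ) (κ : ℝ),
      z₀ ≤ z → Plc n d th gam y r r2 r' r'' a M i j → D.Ok2 n K J a₀ w₀ z M lam gam κ C₁ q →
      ∀ (P : ℕ → PN) (ω : D.Ω), 0 < q ω → GoodS D n K' w₀ z M C ω → FrP D n K' z i j r C P ω →
      (∀ l, 1 ≤ l → l ≤ n → |ze D i j r (fun _ => P) ω l| ≤ exp (C' * z)) ∧
      ∀ w, w₀ + j * z ≤ w → w ≤ w₀ + (j + 1) * z →
        OneC D n J w i j r y d z th gam C' P ω ∧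
        ∀ ω', 0 < q ω' → GoodS D n K' w₀ z M C ω' → bb D i j r ω = bb D i j r ω' →
          D.T ω / 2 ^ (J - w) = D.T ω' / 2 ^ (J - w) →
          TwoC D n J w i j r r2 r' r'' y d z th gam C' P ω ω' := by
  classical
  intro n d K K' th lam gam C₁ C hn hC₁ hC hlam hgam
  obtain ⟨K₂, hK₂⟩ : ∃ K₂, K₂ = K + K' := ⟨_, rfl⟩
  obtain ⟨N, hN⟩ : ∃ N, N = K₂ * (K₂ + 1) ^ n := ⟨_, rfl⟩
  obtain ⟨Ct₁, hCt₁, hT1⟩ := tay ((K₂ + 1) * (K + 1))
  obtain ⟨Ct₂, hCt₂, hT2⟩ := Pool.TC37.tay_d ((K₂ + 1) * (K + 1)) d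
  obtain ⟨Ct, hCte⟩ : ∃ Ct, Ct = max Ct₁ Ct₂ := ⟨_, rfl⟩
  have hCt1 : 1 ≤ Ct := by rw [hCte]; exact hCt₁.trans (le_max_left _ _)
  have hTC : TayC ((K₂ + 1) * (K + 1)) Ct :=
    TayC.mono (C := Ct₁) hT1 (by rw [hCte]; exact le_max_left _ _)
  have hTD : TayD ((K₂ + 1) * (K + 1)) d Ct :=
    TayD.mono (C := Ct₂) hT2 (by rw [hCte]; exact le_max_right _ _)
  obtain ⟨Cs, Ns, hCs, hsys⟩ := sys_near K₂ (n + 1)
  obtain ⟨c, hc⟩ := exists_nat_ge (4 * C₁ + 1)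
  obtain ⟨C₀, hC₀⟩ : ∃ C₀ : ℝ, C₀ = C + 1 + c := ⟨_, rfl⟩
  have hc0 : (0 : ℝ) ≤ c := Nat.cast_nonneg c
  obtain ⟨Cd, hCd1, hCd⟩ : ∃ Cd : ℝ, 1 ≤ Cd ∧ ∀ l ≤ n, ((exs l N).card : ℝ) ≤ Cd := by
    refine ⟨1 + ∑ l ∈ range (n + 1), ((exs l N).card : ℝ), ?_, fun l hl => ?_⟩
    · have : 0 ≤ ∑ l ∈ range (n + 1), ((exs l N).card : ℝ) :=
        Finset.sum_nonneg fun _ _ => Nat.cast_nonneg _
      linarith only [this]
    · have := Finset.single_le_sum (f := fun l => ((exs l N).card : ℝ))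
        (fun _ _ => Nat.cast_nonneg _) (mem_range.2 (Nat.lt_succ_of_le hl))
      linarith only [this]
  obtain ⟨C₂, hC₂, hnum⟩ := nums n N (dd N n) Ns Ct Cs Cd C₀ hCt1 hCs hCd1
    (by rw [hC₀]; positivity)
  have hL1 := Pool.TC37.Lc_one d
  obtain ⟨C', hC'⟩ : ∃ C' : ℝ, C' = C₂ + 2 * Lc d := ⟨_, rfl⟩
  refine ⟨C', by rw [hC']; linarith only [hC₂, hL1], fun y r r2 r' r'' a M => ⟨1, ?_⟩⟩
  intro J a₀ w₀ z i j D q κ hz hPl hO P ω hω hG hFP
  have hzr : (1 : ℝ) ≤ z := by exact_mod_cast hz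
  have hz0 : (0 : ℝ) ≤ z := by linarith only [hzr]
  have hS := hPl.stp
  have i2 := hPl.i2
  have j1 := hPl.j1
  have j2 := hPl.j2
  have a1 := hPl.a1
  have y1 := hPl.y1
  have s5 := hS.s5
  have s6 := hS.s6
  have s7 := hS.s7
  have nm : Nm n y r a M i j := ⟨s7, by omega, a1, by omega, j1, by omega⟩
  -- sizes
  obtain ⟨E, hE⟩ : ∃ E : ℝ, E = exp (C₀ * z) := ⟨_, rfl⟩
  have hE1 : exp z ≤ E := by
    rw [hE]
    refine exp_le_exp.2 (le_mul_of_one_le_left hz0 ?_)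
    rw [hC₀]
    linarith only [hC₁, hC, hc]
  have hE2 : exp (C * z) ≤ E := by
    rw [hE]
    refine exp_le_exp.2 (mul_le_mul_of_nonneg_right ?_ hz0)
    rw [hC₀]
    linarith only [hC₁, hc]
  have hE3 : (2 : ℝ) ^ (c * z) ≤ E := by
    refine (two_pow_le c z).trans ?_
    rw [hE]
    refine exp_le_exp.2 (mul_le_mul_of_nonneg_right ?_ hz0)
    rw [hC₀]
    linarith only [hC]
  have hEone : 1 ≤ E := (one_le_exp hz0).trans hE1
  have hbA : bA K₂ n E = (4 * E) ^ dd N n := by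
    unfold bA
    rw [hN]
  have hbA1 : 1 ≤ bA K₂ n E := by
    rw [hbA]
    exact one_le_pow₀ (by linarith only [hEone])
  obtain ⟨B, hB⟩ : ∃ B : ℝ, B = Ct * bA K₂ n E * E := ⟨_, rfl⟩
  have hAB : bA K₂ n E ≤ B := by
    rw [hB]
    have h1 : bA K₂ n E ≤ Ct * bA K₂ n E :=
      le_mul_of_one_le_left (by linarith only [hbA1]) hCt1
    exact h1.trans (le_mul_of_one_le_right (by linarith only [hbA1, h1]) hEone)
  have hB1 : 1 ≤ B := hbA1.trans hAB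
  obtain ⟨S, hSd⟩ : ∃ S : ℝ, S = Cs * E ^ Ns := ⟨_, rfl⟩
  have hS0 : 0 ≤ S := by rw [hSd]; positivity
  obtain ⟨S', hS'⟩ : ∃ S' : ℝ, S * E ^ (n * N + 3) = S' := ⟨_, rfl⟩
  have hS'0 : 0 ≤ S' := by rw [← hS']; positivity
  obtain ⟨Z, hZ⟩ : ∃ Z : ℝ, Z = 2 * B + Cd * (4 * B ^ (n * N + 1) * S') := ⟨_, rfl⟩
  have hZ2 : 2 * Z ≤ exp (C₂ * z) := by
    rw [hZ, ← hS', hSd]
    exact hnum z hz E B hE (by rw [hB, hbA])
  have hZB : 2 * B ≤ Z := by
    rw [hZ]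
    have : 0 ≤ Cd * (4 * B ^ (n * N + 1) * S') := by positivity
    linarith only [this]
  have hZ0 : 0 ≤ Z := by linarith only [hB1, hZB]
  obtain ⟨δ, hδ⟩ : ∃ δ : ℝ, δ = 1 / 2 ^ (y * z) := ⟨_, rfl⟩
  have hδ0 : 0 ≤ δ := by rw [hδ]; positivity
  have eδ : exp (C' * z) / 2 ^ (y * z) = exp (C' * z) * δ := by
    rw [hδ, mul_one_div]
  have hfin : 2 * Lc d * Z ≤ exp (C' * z) := by
    have h1 : 2 * Lc d ≤ exp (2 * Lc d * z) := by
      calc 2 * Lc d ≤ 2 * Lc d + 1 := by linarith only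
        _ ≤ exp (2 * Lc d) := add_one_le_exp _
        _ ≤ exp (2 * Lc d * z) :=
            exp_le_exp.2 (le_mul_of_one_le_right (by linarith only [hL1]) hzr)
    have h2 : Z ≤ exp (C₂ * z) := by linarith only [hZ2, hZ0]
    rw [hC', add_mul, exp_add, mul_comm (exp (C₂ * z))]
    exact mul_le_mul h1 h2 hZ0 (exp_pos _).le
  have hfin1 : Z ≤ exp (C' * z) := by
    refine le_trans ?_ hfin
    have : 1 * Z ≤ 2 * Lc d * Z := mul_le_mul_of_nonneg_right (by linarith only [hL1]) hZ0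
    linarith only [this]
  have hLZ : Lc d * Z ≤ exp (C' * z) := by
    refine le_trans ?_ hfin
    have : 0 ≤ Lc d * Z := mul_nonneg (by linarith only [hL1]) hZ0
    linarith only [this]
  -- the final bounds
  have fA : ∀ x : ℝ, x ≤ bA K₂ n E → x ≤ exp (C' * z) := fun x hx => by
    linarith only [hx, hAB, hZB, hB1, hfin1]
  have fL : ∀ x : ℝ, x ≤ Lc d * bA K₂ n E → x ≤ exp (C' * z) := fun x hx => by
    refine hx.trans (le_trans (mul_le_mul_of_nonneg_left ?_ (by linarith only [hL1])) hLZ)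
    linarith only [hAB, hZB, hB1]
  have fB : ∀ x : ℝ, x ≤ B * δ → x ≤ exp (C' * z) / 2 ^ (y * z) := fun x hx => by
    rw [eδ]
    exact hx.trans (mul_le_mul_of_nonneg_right (by linarith only [hZB, hB1, hfin1]) hδ0)
  have fLB : ∀ x : ℝ, x ≤ Lc d * (B * δ) → x ≤ exp (C' * z) / 2 ^ (y * z) := fun x hx => by
    rw [eδ]
    refine hx.trans ?_
    rw [← mul_assoc]
    refine mul_le_mul_of_nonneg_right (le_trans (mul_le_mul_of_nonneg_left ?_
      (by linarith only [hL1])) hLZ) hδ0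
    linarith only [hZB, hB1]
  have fZ : ∀ x : ℝ, x ≤ Z * δ → x ≤ exp (C' * z) / 2 ^ (y * z) := fun x hx => by
    rw [eδ]
    exact hx.trans (mul_le_mul_of_nonneg_right hfin1 hδ0)
  have fLZ : ∀ x : ℝ, x ≤ Lc d * (Z * δ) → x ≤ exp (C' * z) / 2 ^ (y * z) := fun x hx => by
    rw [eδ]
    refine hx.trans ?_
    rw [← mul_assoc]
    exact mul_le_mul_of_nonneg_right hLZ hδ0
  have fLZ2 : ∀ x : ℝ, x ≤ Lc d * (2 * (Z * δ)) → x ≤ exp (C' * z) / 2 ^ (y * z) :=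
    fun x hx => by
    rw [eδ]
    refine hx.trans ?_
    have e1 : Lc d * (2 * (Z * δ)) = 2 * Lc d * Z * δ := by ring
    rw [e1]
    exact mul_le_mul_of_nonneg_right hfin hδ0
  -- the systems
  have hK1 : K ≤ K₂ := by omega
  have dP : ∀ l, (P l).totalDegree ≤ K₂ := fun l => (hFP.deg l).trans (by omega)
  have hP := hFP.tri
  have nP : ∀ i' ≤ i, ∀ l ≤ n,
      nrm (D.g i' j) (1 / 2) (chr P (D.Φ i' j ω l - P l)) ≤ E / 2 ^ D.g i' j l ∧
      nrm (D.g (i' - 1) (j - r)) (1 / 2) (chr P (D.Φ (i' - 1) (j - r) ω l - P l)) ≤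
        E / 2 ^ D.g (i' - 1) (j - r) l := fun i' hi' l hl =>
    ⟨(hFP.near i' hi' l hl).1.trans (div_le_div_of_nonneg_right hE2 (by positivity)),
      (hFP.near i' hi' l hl).2.trans (div_le_div_of_nonneg_right hE2 (by positivity))⟩
  obtain ⟨Q, hQ, dQ', -, nQ'⟩ := hG.fc
  have dQ : ∀ l, (Q l).totalDegree ≤ K₂ := fun l => (dQ' l).trans (by omega)
  have nQ : ∀ i' < M, ∀ j' < M, ∀ l ≤ n,
      nrm (D.g i' j') (1 / 2) (chr Q (D.Φ i' j' ω l - Q l)) ≤ E / 2 ^ D.g i' j' l :=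
    fun i' hi' j' hj' l hl => (nQ' i' hi' j' hj' l hl).trans
      (div_le_div_of_nonneg_right hE2 (by positivity))
  have sys : ∀ i' j' : ℕ, i' < M → j' < M → (∀ l ≤ n,
      nrm (D.g i' j') (1 / 2) (chr P (D.Φ i' j' ω l - P l)) ≤ E / 2 ^ D.g i' j' l) →
      ∀ l ≤ n, nrm (D.g i' j') (1 / 2) (chr Q (P l - Q l)) ≤ S / 2 ^ D.g i' j' l := by
    intro i' j' hi' hj' h l hl
    rw [hSd]
    exact hsys (D.g i' j') (D.Φ i' j' ω) P Q E (hO.P_tri i' j' _) hP hQ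
      (fun l => (hO.P_deg i' j' _ l).trans hK1) dP dQ hEone (fun l hl => h l (by omega))
      (fun l hl => nQ i' hi' j' hj' l (by omega)) l (by omega)
  have W0 := sys i j (by omega) (by omega) (fun l hl => (nP i le_rfl l hl).1)
  have W1 := sys (i - 1) (j - r) (by omega) (by omega) (fun l hl => (nP i le_rfl l hl).2)
  have W2 := sys (i - a) j (by omega) (by omega) (fun l hl => (nP (i - a) (by omega) l hl).1)
  have hSys : Sys D n K₂ z M i j r a E S P Q ω := ⟨hP, hQ, dP, dQ, nQ, W0, W1, W2⟩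
  have pr1 : ∀ w, w₀ + j * z ≤ w → w ≤ w₀ + (j + 1) * z →
      Pr1 D n K J a₀ w₀ z M lam gam κ C₁ q c y r a i j K₂ d P E Ct ω w := by
    intro w hw1 hw2
    have hwJ : w ≤ J := by
      have e1 := hO.top
      have e2 := hO.thin
      have e3 : (j + 1) * z ≤ (M + 1) * z := Nat.mul_le_mul_right z (by omega)
      omega
    exact ⟨hO, hlam, by linarith only [hC₁], hc, nm, hK1, hP, dP, fun l hl => (nP i le_rfl l hl).1,
      fun l hl => (nP i le_rfl l hl).2, hE1, hE3, hCt1, hS.d1, hTC, hTD, hwJ, hw1, hG.pc⟩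
  refine ⟨fun l l1 hl => ?_, fun w hw1 hw2 => ?_⟩
  · have H := pr1 (w₀ + j * z) le_rfl (by
      have : j * z ≤ (j + 1) * z := Nat.mul_le_mul_right z (by omega)
      omega)
    obtain ⟨r0, r1, -⟩ := tms hO H.hwJ ω
    rw [H.ze_eq hω hl]
    exact fA _ (H.zx_le r0 r1 hl)
  have H := pr1 w hw1 hw2
  obtain ⟨r0, r1, rX⟩ := tms hO H.hwJ ω
  have hd := hS.d1
  refine ⟨⟨fun l l1 hl => ⟨?_, fun s _ _ => fL _ (H.bs_le hl s)⟩, fun l hl => ⟨?_,
    fun s hs1 hs2 => ?_⟩, fun l l1 hl => ⟨?_, fun x x0 x1 => ?_⟩⟩, ?_⟩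
  · rw [z0_eq]
    exact fA _ (H.zx_le le_rfl zero_le_one hl)
  · have ln := hl.1.2.1.le
    rw [H.ze_eq hω ln, z0_eq]
    refine fB _ ?_
    rw [hB, hδ]
    exact H.cst hl.1.1 ln (hS.t3 l hl) r0 r1
  · have ln := hl.1.2.1.le
    refine fLB _ (bs_cst hd (fun x x0 x1 => ?_) hs1)
    rw [hB, hδ]
    exact H.cst hl.1.1 ln (hS.t3 l hl) x0 x1
  · rw [H.ze_eq hω hl]
    refine fB _ ?_
    rw [hB, hδ]
    exact H.pol l1 hl (hS.s3 l l1 hl) r0 r1
  · refine fB _ ?_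
    rw [hB, hδ]
    exact H.pol l1 hl (hS.s3 l l1 hl) x0 x1
  -- two samples
  intro ω' hω' hG' hbb hT
  have ec : D.c i j ω' = D.c i j ω := (congrArg Prod.fst hbb).symm
  have et : t0 D J w ω' = t0 D J w ω := (t0_congr hT).symm
  have pr2 : ∀ s, i + s < M → D.c (i + s) (j - r) ω = D.c (i + s) (j - r) ω' →
      Pr2 D n K J a₀ w₀ z M lam gam κ C₁ q c y r a i j K₂ N P Q E S S' Ct ω ω' w s :=
    fun s hs e => ⟨hO, hlam, by linarith only [hC₁], hc, nm, by omega, by omega, hK1, hN, hSys,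
      hE1, hE3, hCt1, hTC, hS0, hS', H.hwJ, hw1, hG.pc, hG'.pc, ec, e.symm, et, hs⟩
  have zle : ∀ l ≤ n, bZ N l B S' ≤ Z := by
    intro l hl
    unfold bZ
    rw [hZ]
    have h1 : B ^ (l * N + 1) ≤ B ^ (n * N + 1) := by
      refine pow_le_pow_right₀ hB1 ?_
      have : l * N ≤ n * N := Nat.mul_le_mul_right N hl
      omega
    have h2 : ((exs l N).card : ℝ) * (4 * B ^ (l * N + 1) * S') ≤
        Cd * (4 * B ^ (n * N + 1) * S') := by
      refine mul_le_mul (hCd l hl) ?_ (by positivity) (by linarith only [hCd1])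
      exact mul_le_mul_of_nonneg_right (mul_le_mul_of_nonneg_left h1 (by norm_num)) hS'0
    linarith only [h2]
  -- differences of the paths
  have pdif : ∀ l ≤ n, ∀ x : ℝ, |zs P (pp D (D.ln ω) (t0 D J w ω + x * (1 / 2 ^ w))) l -
      zs P (pp D (D.ln ω') (t0 D J w ω + x * (1 / 2 ^ w))) l| ≤
        bZ N l (Ct * bA K₂ n E * E) S' * (1 / 2 ^ (y * z)) / 2 ^ D.g i j l →
      |zx D J w i j r (fun _ => P) x ω l - zx D J w i j r (fun _ => P) x ω' l| ≤ Z * δ := by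
    intro l hl x h
    rw [← hB, ← hδ] at h
    have h1 := up h
    rw [zx_eq, zx_eq, et, ← mul_sub]
    exact h1.trans (mul_le_mul_of_nonneg_right (zle l hl) hδ0)
  have pdif2 : ∀ l ≤ n, ∀ x : ℝ, |(zs P (pp D (D.ln ω) (t0 D J w ω + x * (1 / 2 ^ w))) l -
        zs P (pp D (D.ln ω) (t0 D J w ω)) l) -
      (zs P (pp D (D.ln ω') (t0 D J w ω + x * (1 / 2 ^ w))) l -
        zs P (pp D (D.ln ω') (t0 D J w ω)) l)| ≤
        bZ N l (Ct * bA K₂ n E * E) S' * (1 / 2 ^ (y * z)) / 2 ^ D.g i j l →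
      |(zx D J w i j r (fun _ => P) x ω l - zx D J w i j r (fun _ => P) 0 ω l) -
        (zx D J w i j r (fun _ => P) x ω' l - zx D J w i j r (fun _ => P) 0 ω' l)| ≤ Z * δ := by
    intro l hl x h
    rw [← hB, ← hδ] at h
    have h1 := up h
    rw [zx_eq, zx_eq, zx_eq, zx_eq, et, ← mul_sub, ← mul_sub, ← mul_sub, zero_mul, add_zero]
    exact h1.trans (mul_le_mul_of_nonneg_right (zle l hl) hδ0)
  have conv : ∀ l ≤ n, (∀ x : ℝ, 0 ≤ x → x ≤ 1 →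
      |zx D J w i j r (fun _ => P) x ω l - zx D J w i j r (fun _ => P) x ω' l| ≤ Z * δ) →
      |z0 D J w i j r (fun _ => P) ω l - z0 D J w i j r (fun _ => P) ω' l| ≤
        exp (C' * z) / 2 ^ (y * z) ∧
      ∀ s, 1 ≤ s → s ≤ d →
        |bs D J w i j r d (fun _ => P) s ω l - bs D J w i j r d (fun _ => P) s ω' l| ≤
          exp (C' * z) / 2 ^ (y * z) := by
    intro l hl h
    refine ⟨?_, fun s hs1 hs2 => fLZ2 _ (bs_dif hd (fun x x0 x1 => ?_) hs1)⟩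
    · rw [z0_eq, z0_eq]
      exact fZ _ (h 0 le_rfl zero_le_one)
    · have h1 := abs_le.1 (h x x0 x1)
      have h2 := abs_le.1 (h 0 le_rfl zero_le_one)
      rw [abs_le]
      constructor <;> linarith [h1.1, h1.2, h2.1, h2.2]
  have dich : ∀ k, 1 ≤ k → k ≤ n → ¬ sl th gam n k → gr th gam n k := by
    intro k k1 kn hk
    refine ⟨k1, kn, ?_⟩
    by_contra h
    push Not at h
    refine hk ⟨k1, lt_of_le_of_ne kn fun e => ?_, h⟩
    rw [e] at h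
    exact absurd hS.gn (not_le.2 h)
  have grn : ∀ {l k : ℕ}, sl th gam n l → gr th gam n k → (gam l - gam k) * r + y ≤ 0 := by
    intro l k hl hk
    have h1 := hS.s1 l hl
    have h2 := hS.s2 k hk
    have e1 : (gam l - gam k) * r = gam l * r - gam k * r := by ring
    have hy : (0 : ℝ) ≤ y := Nat.cast_nonneg y
    linarith
  have s5r : (r2 : ℝ) ≤ r' := by exact_mod_cast s5
  have hy : (0 : ℝ) ≤ y := Nat.cast_nonneg y
  have L0n : ∀ {l k : ℕ}, sl0 th gam n l → 1 ≤ k → k ≤ n → ¬ sl0 th gam n k →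
      (gam l - gam k) * r + y ≤ 0 := by
    intro l k hl k1 kn hk
    by_cases hk1 : sl th gam n k
    · rcases (Pool.TC.sl_iff k).1 hk1 with h1 | h1
      · exact absurd h1 hk
      · have h2 := hS.t0 l hl
        have h3 := hS.t1 k h1
        have e1 : (gam l - gam k) * r = gam l * r - gam k * r := by ring
        linarith
    · exact grn hl.1 (dich k k1 kn hk1)
  refine ⟨fun e => ⟨fun l hl => ?_, fun l hl s hs1 hs2 => ?_⟩, fun e l hl => ?_,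
    fun h3 e l hl s hs1 hs2 => ?_, fun e l l1 hl => ?_⟩
  · -- `L2`, constant coordinates
    have H2 := pr2 r2 (by omega) e
    have ln := hl.1.2.1.le
    refine (conv l ln fun x x0 x1 => pdif l ln x ?_).1
    exact H2.one_t (sl := sl0 th gam n) (fun k _ _ hk => hS.t0 k hk) (fun k hk => hk.1.1)
      hl.1.1 ln hl (fun k k1 kn hk => L0n hl k1 kn hk) x0 x1
  · -- `L2`, moving coordinates
    have H2 := pr2 r2 (by omega) e
    have ln := hl.1.2.1.le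
    refine fLZ _ (bs_dif hd (fun x x0 x1 => pdif2 l ln x ?_) hs1)
    refine H2.two_t (sl := sl0 th gam n) (mv := sl1 th gam n) (fun k _ _ hk => hS.t0 k hk)
      (fun k hk => hk.1.1) (fun k _ _ hk => hS.t2 k hk) hl.1.1 ln hl (fun k k1 kn hk => ?_)
      x0 x1
    by_cases hk1 : sl th gam n k
    · rcases (Pool.TC.sl_iff k).1 hk1 with h1 | h1
      · exact absurd h1 hk
      · right
        refine ⟨h1, ?_⟩
        have h2 := hS.t2 l hl
        have h3 := hS.t1 k h1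
        have e1 : (gam l - gam k - 1) * r = (gam l - 1) * r - gam k * r := by ring
        linarith
    · exact Or.inl (grn hl.1 (dich k k1 kn hk1))
  · -- `L`
    have H2 := pr2 r' (by omega) e
    have ln := hl.2.1.le
    refine conv l ln fun x x0 x1 => pdif l ln x ?_
    exact H2.one_t (sl := sl th gam n) (fun k _ _ hk => hS.s1 k hk) (fun k hk => hk.1)
      hl.1 ln hl (fun k k1 kn hk => grn hl (dich k k1 kn hk)) x0 x1
  · -- `L`, velocities of the group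
    have H2 := pr2 r' (by omega) e
    have ln := hl.2.1
    refine fLZ _ (bs_dif hd (fun x x0 x1 => pdif2 l ln x ?_) hs1)
    refine H2.two_t (sl := sl th gam n) (mv := gr th gam n) (fun k _ _ hk => hS.s1 k hk)
      (fun k hk => hk.1) (fun k _ _ hk => h3 k hk) hl.1 ln hl (fun k k1 kn hk => ?_) x0 x1
    right
    have h1 := dich k k1 kn hk
    refine ⟨h1, ?_⟩
    have h2 := h3 l hl
    have h4 := hS.s2 k h1
    have e1 : (gam l - gam k - 1) * r = (gam l - 1) * r - gam k * r := by ring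
    linarith
  · -- `L''`
    have H2 := pr2 r'' (by omega) e
    refine conv l hl fun x x0 x1 => pdif l hl x ?_
    refine H2.one_t (sl := fun k => 1 ≤ k) (fun k k1 kn _ => ?_) (fun k hk => hk)
      l1 hl l1 (fun k k1 kn hk => absurd k1 hk) x0 x1
    have h4 := hS.s4 k k1 kn
    have h5 : 0 ≤ gam k * r := mul_nonneg (hgam k) (Nat.cast_nonneg r)
    linarith

open Classical in
/-- **(LIN)** -/
theorem lin_stmt : Pool.TC.LinStmt := by
  intro n d K K' th lam gam C₁ C hn hC₁ hC hlam hgam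
  obtain ⟨C', h1, h⟩ := lin_all n d K K' th lam gam C₁ C hn hC₁ hC hlam hgam
  refine ⟨C', h1, fun y r r2 r' r'' a M => ?_⟩
  obtain ⟨z₀, hz⟩ := h y r r2 r' r'' a M
  refine ⟨z₀, fun J a₀ w₀ z i j D q κ hz0 hPl hO P ω hω hG hF => ?_⟩
  obtain ⟨k1, k2⟩ := hz J a₀ w₀ z i j D q κ hz0 hPl hO P ω hω hG hF
  have s3 := hPl.stp.s3g
  refine ⟨k1, fun w hw1 hw2 => ?_⟩
  obtain ⟨m1, m2⟩ := k2 w hw1 hw2
  refine ⟨m1.bd, m1.s0, m1.pth, fun ω' hω' hG' hb hT => ?_⟩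
  have m3 := m2 ω' hω' hG' hb hT
  exact ⟨m3.l2, fun e => ⟨m3.l1 e, m3.lg s3 e⟩, m3.l3⟩

end Pool.TC37L
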