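import Pool.Agent.H25.P4.LinE
import Pool.Agent.H48.TC.Stm

/-!
# Lines over a closed frame, with a threshold: two samples

`sl`: coordinates which are small at the place of the context, `mv`: coordinates whose path is
constant up to a small error.
-/

set_option autoImplicit false

namespace Pool.TC37L

open Finset Real MvPolynomial
open Pool.Agent.H49.Ent Pool.Agent.H32.Dense Pool.STK
open Pool.STAT Pool.MIC.Frm Pool.FRM Pool.P4L
open Pool.SYS35 (nrm_nonneg')

/-- **Levels** at the base place (`g`) and at the coarser places (`g1`: a longer window, `g2`: a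
larger radius). -/
structure Lv2 (n c y z r a : ℕ) (g g1 g2 : ℕ → ℕ) : Prop where
  t1 : g1 0 + r * z = g 0
  t2 : g2 0 = g 0
  ya : y ≤ a
  q1 : ∀ k, 1 ≤ k → k ≤ n → g2 k + a * z ≤ g k + c * z
  q2 : ∀ l, 1 ≤ l → l ≤ n → g l ≤ g2 l + a * z + c * z

/-- The coordinate `k` is much longer than `l` on the longer window. -/
def Pa (c y z : ℕ) (g g1 : ℕ → ℕ) (l k : ℕ) : Prop := g1 k + g l + y * z ≤ g k + g1 l + c * z

/-- The coordinate `k`, times the time, is much longer than `l` on the longer window. -/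
def Pb2 (c y z : ℕ) (g g1 : ℕ → ℕ) (l k : ℕ) : Prop :=
  g1 k + g1 0 + g l + y * z ≤ g k + g 0 + g1 l + c * z

section

variable {n c y z r a : ℕ} {g g1 g2 : ℕ → ℕ}

theorem Lv2.quad (h : Lv2 n c y z r a g g1 g2) {l N k k' : ℕ} {γ : ℕ →₀ ℕ}
    (l1 : 1 ≤ l) (ln : l ≤ n) (k1 : 1 ≤ k) (k1' : 1 ≤ k')
    (hα : Finsupp.single k 1 + (Finsupp.single k' 1 + γ) ∈ exs l N) :
    Finsupp.weight g2 (Finsupp.single k 1 + (Finsupp.single k' 1 + γ)) + g l + y * z ≤
      Finsupp.weight g (Finsupp.single k 1 + (Finsupp.single k' 1 + γ)) + g2 l +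
        (n * N + 3) * (c * z) := by
  have hlt : ∀ i, (Finsupp.single k 1 + (Finsupp.single k' 1 + γ) : ℕ →₀ ℕ) i ≠ 0 → i < l :=
    fun i hi => exs_lt hα (Finsupp.mem_support_iff.2 hi)
  have hk : k < l := hlt k (by
    rw [Finsupp.add_apply, Finsupp.single_eq_same]
    omega)
  have hk' : k' < l := hlt k' (by
    rw [Finsupp.add_apply, Finsupp.add_apply, Finsupp.single_eq_same]
    omega)
  have hγ : ∀ i, γ i ≠ 0 → i < l := fun i hi => hlt i (by
    rw [Finsupp.add_apply, Finsupp.add_apply]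
    omega)
  have hdeg := exs_deg hα
  rw [← Finsupp.degree_apply, map_add, map_add, Finsupp.degree_single, Finsupp.degree_single]
    at hdeg
  have hd2 : γ.degree ≤ n * N := by
    have : l * N ≤ n * N := Nat.mul_le_mul_right N ln
    omega
  have hw := wt_le (d := g) (d' := g2) (e := c * z) hγ fun i hi => by
    rcases Nat.eq_zero_or_pos i with h0 | h0
    · rw [h0, h.t2]
      exact Nat.le_add_right _ _
    · have := h.q1 i h0 (by omega)
      omega
  rw [map_add, map_add, map_add, map_add, Finsupp.weight_single, Finsupp.weight_single,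
    Finsupp.weight_single, Finsupp.weight_single, one_smul, one_smul, one_smul, one_smul]
  have e1 := h.q1 k k1 (by omega)
  have e2 := h.q1 k' k1' (by omega)
  have e3 := h.q2 l l1 ln
  have e4 : y * z ≤ a * z := Nat.mul_le_mul_right z h.ya
  have e5 : γ.degree * (c * z) ≤ n * N * (c * z) := Nat.mul_le_mul_right _ hd2
  have e6 : (n * N + 3) * (c * z) = n * N * (c * z) + 3 * (c * z) := by ring
  omega

theorem Lv2.lin1 (h : Lv2 n c y z r a g g1 g2) {l k m : ℕ} (hp : Pa c y z g g1 l k) :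
    Finsupp.weight g1 (Finsupp.single k 1 + Finsupp.single 0 m) + g l + y * z ≤
      Finsupp.weight g (Finsupp.single k 1 + Finsupp.single 0 m) + g1 l + c * z := by
  rw [map_add, map_add, Finsupp.weight_single, Finsupp.weight_single, Finsupp.weight_single,
    Finsupp.weight_single, one_smul, one_smul, smul_eq_mul, smul_eq_mul]
  unfold Pa at hp
  have e2 : m * g1 0 ≤ m * g 0 := Nat.mul_le_mul_left m (by have := h.t1; omega)
  omega

theorem Lv2.lin2 (h : Lv2 n c y z r a g g1 g2) {l k m : ℕ} (hp : Pb2 c y z g g1 l k) :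
    Finsupp.weight g1 (Finsupp.single k 1 + Finsupp.single 0 (m + 1)) + g l + y * z ≤
      Finsupp.weight g (Finsupp.single k 1 + Finsupp.single 0 (m + 1)) + g1 l + c * z := by
  rw [map_add, map_add, Finsupp.weight_single, Finsupp.weight_single, Finsupp.weight_single,
    Finsupp.weight_single, one_smul, one_smul, smul_eq_mul, smul_eq_mul]
  unfold Pb2 at hp
  have e2 : m * g1 0 ≤ m * g 0 := Nat.mul_le_mul_left m (by have := h.t1; omega)
  have e3 : (m + 1) * g1 0 = m * g1 0 + g1 0 := by ring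
  have e4 : (m + 1) * g 0 = m * g 0 + g 0 := by ring
  omega

/-- The coefficients without small coordinates. -/
theorem Lv2.sm (h : Lv2 n c y z r a g g1 g2) {F : PN} {l N : ℕ} {S : ℝ} {sl mv : ℕ → Prop}
    (hS : 0 ≤ S) (l1 : 1 ≤ l) (ln : l ≤ n) (h1 : nrm g1 (1 / 2) F ≤ S / 2 ^ g1 l)
    (h2 : nrm g2 (1 / 2) F ≤ S / 2 ^ g2 l) {α : ℕ →₀ ℕ} (hα : α ∈ exs l N)
    (hp : ∀ k, 1 ≤ k → k ≤ n → ¬ sl k → Pa c y z g g1 l k ∨ (mv k ∧ Pb2 c y z g g1 l k))
    (ha : ∃ k, 1 ≤ k ∧ α k ≠ 0) (hn : ∀ k, 1 ≤ k → α k ≠ 0 → ¬ sl k) :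
    Sm g l F (S * 2 ^ ((n * N + 3) * (c * z))) (1 / 2 ^ (y * z)) α ∨
      ∃ k, 1 ≤ k ∧ mv k ∧ α = Finsupp.single k 1 := by
  obtain ⟨k, k1, hk⟩ := ha
  have hkl := exs_lt hα (Finsupp.mem_support_iff.2 hk)
  rcases split_exp hk with ⟨k', γ, k1', e⟩ | ⟨m, e⟩
  · left
    rw [e] at hα ⊢
    exact sm_of hS h2 (h.quad l1 ln k1 k1' hα)
  · rcases hp k k1 (by omega) (hn k k1 hk) with h3 | ⟨h3, h4⟩
    · left
      rw [e]
      refine (sm_of hS h1 (h.lin1 h3)).mono ?_ (by positivity)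
      refine mul_le_mul_of_nonneg_left (pow_le_pow_right₀ one_le_two ?_) hS
      exact Nat.le_mul_of_pos_left _ (by omega)
    · rcases Nat.eq_zero_or_pos m with hm | hm
      · right
        refine ⟨k, k1, h3, ?_⟩
        rw [e, hm, Finsupp.single_zero, add_zero]
      · left
        obtain ⟨m', rfl⟩ : ∃ m', m = m' + 1 := ⟨m - 1, by omega⟩
        rw [e]
        refine (sm_of hS h1 (h.lin2 h4)).mono ?_ (by positivity)
        refine mul_le_mul_of_nonneg_left (pow_le_pow_right₀ one_le_two ?_) hS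
        exact Nat.le_mul_of_pos_left _ (by omega)

end

/-- **Two points at two times**: the differences are equal up to a small error. -/
theorem diff_two {n N : ℕ} {F : PN} (hv : F.vars ⊆ range n) (hN : F.totalDegree ≤ N)
    {g : ℕ → ℕ} {l : ℕ} {B S δ : ℝ} (hB : 1 ≤ B) (hS : 0 ≤ S) (hδ : 0 ≤ δ) (sl mv : ℕ → Prop)
    (hF : ∀ α, Sm g l F S 1 α)
    (hs : ∀ α ∈ exs n N, (∃ k, 1 ≤ k ∧ α k ≠ 0) → (∀ k, 1 ≤ k → α k ≠ 0 → ¬ sl k) →
      Sm g l F S δ α ∨ ∃ k, 1 ≤ k ∧ mv k ∧ α = Finsupp.single k 1) {b b' c c' : ℕ → ℝ}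
    (hb : ∀ i < n, |b i| ≤ B / 2 ^ g i)
    (hb' : ∀ i < n, |b' i| ≤ B / 2 ^ g i) (hc : ∀ i < n, |c i| ≤ B / 2 ^ g i)
    (hc' : ∀ i < n, |c' i| ≤ B / 2 ^ g i) (h0 : b 0 = b' 0) (h0' : c 0 = c' 0)
    (hsb : ∀ i < n, sl i → |b i| ≤ B * δ / 2 ^ g i)
    (hsb' : ∀ i < n, sl i → |b' i| ≤ B * δ / 2 ^ g i)
    (hsc : ∀ i < n, sl i → |c i| ≤ B * δ / 2 ^ g i)
    (hsc' : ∀ i < n, sl i → |c' i| ≤ B * δ / 2 ^ g i)
    (hd : ∀ i < n, 1 ≤ i → mv i → |c i - b i| ≤ B * δ / 2 ^ g i)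
    (hd' : ∀ i < n, 1 ≤ i → mv i → |c' i - b' i| ≤ B * δ / 2 ^ g i) :
    |(eval c F - eval c' F) - (eval b F - eval b' F)| ≤
      (exs n N).card * (4 * B ^ (n * N + 1) * S) * δ / 2 ^ g l := by
  rw [eval_mon hv hN, eval_mon hv hN, eval_mon hv hN b, eval_mon hv hN b',
    ← Finset.sum_sub_distrib, ← Finset.sum_sub_distrib, ← Finset.sum_sub_distrib]
  refine (Finset.abs_sum_le_sum_abs _ _).trans ?_
  have hBN : 0 ≤ B ^ (n * N) := by positivity
  have hBN1 : B ^ (n * N) ≤ B ^ (n * N + 1) := pow_le_pow_right₀ hB (by omega)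
  have hB1 : B ≤ B ^ (n * N + 1) := by
    calc B = B ^ 1 := (pow_one B).symm
      _ ≤ _ := pow_le_pow_right₀ hB (by omega)
  have key : ∀ α ∈ exs n N, |(coeff α F * mon α c - coeff α F * mon α c') -
      (coeff α F * mon α b - coeff α F * mon α b')| ≤
      (4 * B ^ (n * N + 1) * S) * δ / 2 ^ g l := by
    intro α hα
    have g0 : (0 : ℝ) < 2 ^ g l := by positivity
    have hw : (0 : ℝ) ≤ (1 / 2) ^ Finsupp.weight g α := by positivity
    by_cases h1 : ∃ k, 1 ≤ k ∧ α k ≠ 0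
    swap
    · push Not at h1
      rw [mon_time h1 h0, mon_time h1 h0', sub_self, sub_self, sub_self, abs_zero]
      positivity
    have four : ∀ x y u v : ℝ, |x| ≤ B ^ (n * N) * S * δ / 2 ^ g l →
        |y| ≤ B ^ (n * N) * S * δ / 2 ^ g l → |u| ≤ B ^ (n * N) * S * δ / 2 ^ g l →
        |v| ≤ B ^ (n * N) * S * δ / 2 ^ g l →
        |(x - y) - (u - v)| ≤ (4 * B ^ (n * N + 1) * S) * δ / 2 ^ g l := by
      intro x y u v hx hy hu hv
      have e1 : B ^ (n * N) * S * δ / 2 ^ g l ≤ B ^ (n * N + 1) * S * δ / 2 ^ g l :=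
        div_le_div_of_nonneg_right (mul_le_mul_of_nonneg_right
          (mul_le_mul_of_nonneg_right hBN1 hS) hδ) g0.le
      have e2 : (4 * B ^ (n * N + 1) * S) * δ / 2 ^ g l =
        4 * (B ^ (n * N + 1) * S * δ / 2 ^ g l) := by ring
      rw [abs_le] at hx hy hu hv ⊢
      rw [e2]
      constructor <;> linarith [hx.1, hx.2, hy.1, hy.2, hu.1, hu.2, hv.1, hv.2]
    by_cases h2 : ∃ k, 1 ≤ k ∧ α k ≠ 0 ∧ sl k
    · obtain ⟨k, -, hk, hsk⟩ := h2
      have hkn := exs_lt hα (Finsupp.mem_support_iff.2 hk)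
      have one : ∀ b : ℕ → ℝ, (∀ i < n, |b i| ≤ B / 2 ^ g i) → |b k| ≤ B * δ / 2 ^ g k →
          |coeff α F * mon α b| ≤ B ^ (n * N) * S * δ / 2 ^ g l := by
        intro b hb hbk
        have h3 := mon_small hB hδ hα hb hk hbk
        have h4 : |coeff α F| * (1 / 2) ^ Finsupp.weight g α ≤ S * 1 / 2 ^ g l := hF α
        rw [abs_mul]
        calc |coeff α F| * |mon α b| ≤ |coeff α F| *
              (B ^ (n * N) * (1 / 2) ^ Finsupp.weight g α * δ) :=
              mul_le_mul_of_nonneg_left h3 (abs_nonneg _)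
          _ = (B ^ (n * N) * δ) * (|coeff α F| * (1 / 2) ^ Finsupp.weight g α) := by ring
          _ ≤ (B ^ (n * N) * δ) * (S * 1 / 2 ^ g l) :=
              mul_le_mul_of_nonneg_left h4 (by positivity)
          _ = B ^ (n * N) * S * δ / 2 ^ g l := by ring
      exact four _ _ _ _ (one c hc (hsc k hkn hsk)) (one c' hc' (hsc' k hkn hsk))
        (one b hb (hsb k hkn hsk)) (one b' hb' (hsb' k hkn hsk))
    push Not at h2
    rcases hs α hα h1 h2 with h4 | ⟨k, hk1, hns, hk⟩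
    · unfold Sm at h4
      have one : ∀ b : ℕ → ℝ, (∀ i < n, |b i| ≤ B / 2 ^ g i) →
          |coeff α F * mon α b| ≤ B ^ (n * N) * S * δ / 2 ^ g l := by
        intro b hb
        have h3 := mon_le hB hα hb
        rw [abs_mul]
        calc |coeff α F| * |mon α b| ≤ |coeff α F| *
              (B ^ (n * N) * (1 / 2) ^ Finsupp.weight g α) :=
              mul_le_mul_of_nonneg_left h3 (abs_nonneg _)
          _ = B ^ (n * N) * (|coeff α F| * (1 / 2) ^ Finsupp.weight g α) := by ring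
          _ ≤ B ^ (n * N) * (S * δ / 2 ^ g l) := mul_le_mul_of_nonneg_left h4 (by positivity)
          _ = B ^ (n * N) * S * δ / 2 ^ g l := by ring
      exact four _ _ _ _ (one c hc) (one c' hc') (one b hb) (one b' hb')
    · have hka : α k ≠ 0 := by
        rw [hk, Finsupp.single_eq_same]
        exact one_ne_zero
      have hkn := exs_lt hα (Finsupp.mem_support_iff.2 hka)
      have h4 : |coeff α F| * (1 / 2) ^ Finsupp.weight g α ≤ S * 1 / 2 ^ g l := hF α
      rw [hk] at h4 ⊢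
      rw [Finsupp.weight_single, one_smul, half_pow] at h4
      simp only [mon_single]
      have e1 : (coeff (Finsupp.single k 1) F * c k - coeff (Finsupp.single k 1) F * c' k) -
          (coeff (Finsupp.single k 1) F * b k - coeff (Finsupp.single k 1) F * b' k) =
          coeff (Finsupp.single k 1) F * ((c k - b k) - (c' k - b' k)) := by ring
      rw [e1, abs_mul]
      have h5 : |(c k - b k) - (c' k - b' k)| ≤ 2 * (B * δ / 2 ^ g k) := by
        have a1 := hd k hkn hk1 hns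
        have a2 := hd' k hkn hk1 hns
        refine (abs_sub _ _).trans ?_
        linarith
      calc |coeff (Finsupp.single k 1) F| * |(c k - b k) - (c' k - b' k)| ≤
            |coeff (Finsupp.single k 1) F| * (2 * (B * δ / 2 ^ g k)) :=
            mul_le_mul_of_nonneg_left h5 (abs_nonneg _)
        _ = (2 * B * δ) * (|coeff (Finsupp.single k 1) F| * (1 / 2 ^ g k)) := by ring
        _ ≤ (2 * B * δ) * (S * 1 / 2 ^ g l) := mul_le_mul_of_nonneg_left h4 (by positivity)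
        _ = (2 * B * S) * δ / 2 ^ g l := by ring
        _ ≤ _ := by
            refine div_le_div_of_nonneg_right (mul_le_mul_of_nonneg_right
              (mul_le_mul_of_nonneg_right ?_ hS) hδ) g0.le
            linarith
  refine (Finset.sum_le_sum key).trans (le_of_eq ?_)
  rw [Finset.sum_const, nsmul_eq_mul]
  ring

section core

variable {N l : ℕ} {P Q : ℕ → PN} {g : ℕ → ℕ} {B S δ : ℝ} {sl mv : ℕ → Prop}

theorem core_two (hQ : TriN Q) (hv : (chr Q (P l - Q l)).vars ⊆ range l)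
    (hN : (chr Q (P l - Q l)).totalDegree ≤ N) (hB : 1 ≤ B) (hS : 0 ≤ S) (hδ : 0 ≤ δ)
    (hF : ∀ α, Sm g l (chr Q (P l - Q l)) S 1 α)
    (hs : ∀ α ∈ exs l N, (∃ k, 1 ≤ k ∧ α k ≠ 0) → (∀ k, 1 ≤ k → α k ≠ 0 → ¬ sl k) →
      Sm g l (chr Q (P l - Q l)) S δ α ∨ ∃ k, 1 ≤ k ∧ mv k ∧ α = Finsupp.single k 1)
    {x x' y y' : ℕ → ℝ}
    (hb : ∀ i < l, |zs Q x i| ≤ B / 2 ^ g i) (hb' : ∀ i < l, |zs Q x' i| ≤ B / 2 ^ g i)
    (hc : ∀ i < l, |zs Q y i| ≤ B / 2 ^ g i) (hc' : ∀ i < l, |zs Q y' i| ≤ B / 2 ^ g i)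
    (h0 : zs Q x 0 = zs Q x' 0) (h0' : zs Q y 0 = zs Q y' 0)
    (hsb : ∀ i < l, sl i → |zs Q x i| ≤ B * δ / 2 ^ g i)
    (hsb' : ∀ i < l, sl i → |zs Q x' i| ≤ B * δ / 2 ^ g i)
    (hsc : ∀ i < l, sl i → |zs Q y i| ≤ B * δ / 2 ^ g i)
    (hsc' : ∀ i < l, sl i → |zs Q y' i| ≤ B * δ / 2 ^ g i)
    (hd : ∀ i ≤ l, 1 ≤ i → mv i → |zs Q y i - zs Q x i| ≤ B * δ / 2 ^ g i)
    (hd' : ∀ i ≤ l, 1 ≤ i → mv i → |zs Q y' i - zs Q x' i| ≤ B * δ / 2 ^ g i)
    (l1 : 1 ≤ l) (hnl : mv l) :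
    |(zs P y l - zs P x l) - (zs P y' l - zs P x' l)| ≤
      (2 * B + (exs l N).card * (4 * B ^ (l * N + 1) * S)) * δ / 2 ^ g l := by
  have h1 := diff_two hv hN hB hS hδ sl mv hF hs hb hb' hc hc' h0 h0' hsb hsb' hsc hsc'
    (fun i hi => hd i hi.le) (fun i hi => hd' i hi.le)
  rw [zs_two hQ, zs_two hQ x, zs_two hQ y', zs_two hQ x']
  have e : zs Q y l - eval (zs Q y) (chr Q (P l - Q l)) -
      (zs Q x l - eval (zs Q x) (chr Q (P l - Q l))) -
      (zs Q y' l - eval (zs Q y') (chr Q (P l - Q l)) -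
        (zs Q x' l - eval (zs Q x') (chr Q (P l - Q l)))) =
      ((zs Q y l - zs Q x l) - (zs Q y' l - zs Q x' l)) -
        ((eval (zs Q y) (chr Q (P l - Q l)) - eval (zs Q y') (chr Q (P l - Q l))) -
          (eval (zs Q x) (chr Q (P l - Q l)) - eval (zs Q x') (chr Q (P l - Q l)))) := by ring
  rw [e]
  have h2 := abs_sub (zs Q y l - zs Q x l) (zs Q y' l - zs Q x' l)
  have h3 := hd l le_rfl l1 hnl
  have h4 := hd' l le_rfl l1 hnl
  refine (abs_sub _ _).trans ?_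
  have e2 : (2 * B + (exs l N).card * (4 * B ^ (l * N + 1) * S)) * δ / 2 ^ g l =
      B * δ / 2 ^ g l + B * δ / 2 ^ g l +
        (exs l N).card * (4 * B ^ (l * N + 1) * S) * δ / 2 ^ g l := by ring
  rw [e2]
  linarith

end core

end Pool.TC37L
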