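import Pool.Agent.H37.TC.Two
import Pool.Agent.H37.TC.Bs
import Pool.Agent.H25.P4.Lin

/-!
# Lines over a closed frame, with a threshold: one sample of a cell
-/

set_option autoImplicit false

namespace Pool.TC37L

open Finset Real MvPolynomial
open Pool.Agent.H49.Ent Pool.Agent.H32.Dense Pool.STK
open Pool.STAT Pool.MIC.Frm Pool.FRM Pool.P4 Pool.P4L
open Pool.TC (zx bs pth)
open Pool.TC37 (pt nd Lc)
open Pool.TT37 (lg)

section

variable {D : NDat2} {n K J a₀ w₀ z M : ℕ} {lam gam : ℕ → ℝ} {κ C₁ : ℝ} {q : D.Ω → ℝ}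

theorem zx_eq (J w i j r : ℕ) (P : ℕ → PN) (x : ℝ) (ω : D.Ω) (l : ℕ) :
    zx D J w i j r (fun _ => P) x ω l =
      2 ^ D.g i j l * zs P (pp D (D.ln ω) (t0 D J w ω + x * (1 / 2 ^ w))) l := by
  unfold zx zt
  rw [nat_eq]

theorem z0_eq (J w i j r : ℕ) (P : ℕ → PN) (ω : D.Ω) (l : ℕ) :
    z0 D J w i j r (fun _ => P) ω l = zx D J w i j r (fun _ => P) 0 ω l := by
  unfold z0 zx
  rw [zero_mul, add_zero]

theorem bs_eq (J w i j r d : ℕ) (P : ℕ → PN) (s : ℕ) (ω : D.Ω) (l : ℕ) :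
    bs D J w i j r d (fun _ => P) s ω l =
      (pt d (fun m : ℕ => zx D J w i j r (fun _ => P) ((m : ℝ) / d) ω l)).coeff s := rfl

/-- The hypothesis on the constant of the interpolation lemma. -/
def TayD (N d : ℕ) (Ct : ℝ) : Prop := ∀ (Q : Polynomial ℝ) (t₀ h ρ A : ℝ),
  Q.natDegree ≤ N → 0 ≤ h → 0 < ρ → h ≤ ρ → (∀ t, t₀ ≤ t → t ≤ t₀ + ρ → |Q.eval t| ≤ A) →
  ∀ s, 0 ≤ s → s ≤ 1 →
  |Q.eval (t₀ + s * h) - ∑ j, (lg (nd d) j).eval s * Q.eval (t₀ + nd d j * h)| ≤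
    Ct * A * (h / ρ) ^ (d + 1)

/-- Interpolation of the path of a sample in the chart of a system near to the label at `(i, j)`. -/
theorem far (hO : D.Ok2 n K J a₀ w₀ z M lam gam κ C₁ q) {K₂ : ℕ} (hK : K ≤ K₂) {P : ℕ → PN}
    (hP : TriN P) (dP : ∀ l, (P l).totalDegree ≤ K₂) {i j : ℕ} (hi : i ≤ M) (hj : j ≤ M) {E : ℝ}
    (hE : exp z ≤ E) {Ct : ℝ} {d : ℕ} (hCt : TayD ((K₂ + 1) * (K + 1)) d Ct)
    {ω : D.Ω} (hω : PthC D n w₀ z M 1 ω)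
    (near : ∀ l ≤ n, nrm (D.g i j) (1 / 2) (chr P (D.Φ i j ω l - P l)) ≤ E / 2 ^ D.g i j l)
    {w : ℕ} (hw : w ≤ J) (hjw : w₀ + j * z ≤ w) {l : ℕ} (hl : l ≤ n) {s : ℝ} (s0 : 0 ≤ s)
    (s1 : s ≤ 1) :
    |zs P (pp D (D.ln ω) (t0 D J w ω + s * (1 / 2 ^ w))) l -
      ∑ m : Fin (d + 1), (lg (nd d) m).eval s *
        zs P (pp D (D.ln ω) (t0 D J w ω + nd d m * (1 / 2 ^ w))) l| ≤
      Ct * (bA K₂ n E / 2 ^ D.g i j l) * (1 / 2 ^ (w - (w₀ + j * z))) ^ (d + 1) := by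
  obtain ⟨R, hR, hRe⟩ := path_pol (K := K) (K' := K₂) hO.pa_deg dP (D.ln ω) l
  obtain ⟨r0, r1, rX⟩ := tms hO hw ω
  have e1 : (1 / 2 ^ w : ℝ) / (1 / 2 ^ (w₀ + j * z)) = 1 / 2 ^ (w - (w₀ + j * z)) := by
    have h3 : (2 : ℝ) ^ w = 2 ^ (w - (w₀ + j * z)) * 2 ^ (w₀ + j * z) := by
      rw [← pow_add]
      congr 1
      omega
    rw [h3]
    field_simp
  have h := hCt R (t0 D J w ω) (1 / 2 ^ w) (1 / 2 ^ (w₀ + j * z))
    (bA K₂ n E / 2 ^ D.g i j l) hR (by positivity) (by positivity)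
    (one_div_le_one_div_of_le (by positivity) (pow_le_pow_right₀ one_le_two hjw))
    (fun t t1 t2 => by
      rw [hRe]
      refine in_box hO hK hP dP hi hj hE hω near ?_ l hl
      have h3 : rt D J w ω * (1 / 2 ^ w) ≤ 1 / 2 ^ (w₀ + j * z) := by
        calc rt D J w ω * (1 / 2 ^ w) ≤ 1 * (1 / 2 ^ w) :=
              mul_le_mul_of_nonneg_right r1 (by positivity)
          _ = 1 / 2 ^ w := one_mul _
          _ ≤ _ := one_div_le_one_div_of_le (by positivity) (pow_le_pow_right₀ one_le_two hjw)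
      have h4 : 0 ≤ rt D J w ω * (1 / 2 ^ w) := by positivity
      rw [abs_le]
      constructor <;> linarith) s s0 s1
  rw [e1] at h
  simp only [hRe] at h
  exact h

/-- The data of one sample. -/
structure Pr1 (D : NDat2) (n K J a₀ w₀ z M : ℕ) (lam gam : ℕ → ℝ) (κ C₁ : ℝ) (q : D.Ω → ℝ)
    (c y r a i j K₂ d : ℕ) (P : ℕ → PN) (E Ct : ℝ) (ω : D.Ω) (w : ℕ) : Prop where
  hO : D.Ok2 n K J a₀ w₀ z M lam gam κ C₁ q
  hlam : ∀ l, 1 ≤ l → l ≤ n → lam l = 1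
  hC₁ : 0 ≤ C₁
  hc : 4 * C₁ + 1 ≤ c
  nm : Nm n y r a M i j
  hK : K ≤ K₂
  hP : TriN P
  dP : ∀ l, (P l).totalDegree ≤ K₂
  near : ∀ l ≤ n, nrm (D.g i j) (1 / 2) (chr P (D.Φ i j ω l - P l)) ≤ E / 2 ^ D.g i j l
  near1 : ∀ l ≤ n, nrm (D.g (i - 1) (j - r)) (1 / 2)
    (chr P (D.Φ (i - 1) (j - r) ω l - P l)) ≤ E / 2 ^ D.g (i - 1) (j - r) l
  hE : exp z ≤ E
  hE3 : (2 : ℝ) ^ (c * z) ≤ E
  ct1 : 1 ≤ Ct
  d1 : 1 ≤ d
  hCt : TayC ((K₂ + 1) * (K + 1)) Ct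
  hCd : TayD ((K₂ + 1) * (K + 1)) d Ct
  hwJ : w ≤ J
  hw1 : w₀ + j * z ≤ w
  pc : PthC D n w₀ z M 1 ω

namespace Pr1

variable {c y r a i j K₂ d : ℕ} {P : ℕ → PN} {E Ct : ℝ} {ω : D.Ω} {w : ℕ}
  (h : Pr1 D n K J a₀ w₀ z M lam gam κ C₁ q c y r a i j K₂ d P E Ct ω w)

include h

theorem E1 : 1 ≤ E := (one_le_exp (Nat.cast_nonneg z)).trans h.hE

theorem A1 : 1 ≤ bA K₂ n E := by
  unfold bA
  exact one_le_pow₀ (by linarith [h.E1])

theorem bx {t : ℝ} (ht : |t - D.X ω 0| ≤ 1 / 2 ^ (w₀ + j * z)) {l : ℕ} (hl : l ≤ n) :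
    |2 ^ D.g i j l * zs P (pp D (D.ln ω) t) l| ≤ bA K₂ n E := by
  have h1 := in_box h.hO h.hK h.hP h.dP (i := i) (j := j) h.nm.iM h.nm.jM h.hE h.pc h.near ht l hl
  have h2 : |zs P (pp D (D.ln ω) t) l| ≤ bA K₂ n E * 1 / 2 ^ D.g i j l := by rwa [mul_one]
  have h3 := up h2
  rwa [mul_one] at h3

theorem ze_eq (hω : 0 < q ω) {l : ℕ} (hl : l ≤ n) :
    ze D i j r (fun _ => P) ω l = zx D J w i j r (fun _ => P) (rt D J w ω) ω l := by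
  obtain ⟨-, -, rX⟩ := tms h.hO h.hwJ ω
  rw [zx_eq, ← rX]
  unfold ze
  rw [nat_eq, zs_congr (m := n + 1) h.hP (fun k hk => X_pp h.hO hω (by omega)) (by omega)]

theorem zx_le {x : ℝ} (x0 : 0 ≤ x) (x1 : x ≤ 1) {l : ℕ} (hl : l ≤ n) :
    |zx D J w i j r (fun _ => P) x ω l| ≤ bA K₂ n E := by
  rw [zx_eq]
  refine h.bx ?_ hl
  obtain ⟨r0, r1, rX⟩ := tms h.hO h.hwJ ω
  have hpw : (1 : ℝ) / 2 ^ w ≤ 1 / 2 ^ (w₀ + j * z) :=
    one_div_le_one_div_of_le (by positivity) (pow_le_pow_right₀ one_le_two h.hw1)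
  have hpw0 : (0 : ℝ) < 1 / 2 ^ w := by positivity
  have h1 : (x - rt D J w ω) * (1 / 2 ^ w) ≤ 1 * (1 / 2 ^ w) :=
    mul_le_mul_of_nonneg_right (by linarith) hpw0.le
  have h2 : -1 * (1 / 2 ^ w) ≤ (x - rt D J w ω) * (1 / 2 ^ w) :=
    mul_le_mul_of_nonneg_right (by linarith) hpw0.le
  rw [rX, abs_le]
  constructor <;> linarith

theorem bs_le {l : ℕ} (hl : l ≤ n) (s : ℕ) :
    |bs D J w i j r d (fun _ => P) s ω l| ≤ Lc d * bA K₂ n E := by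
  rw [bs_eq]
  refine Pool.TC37.pt_cf h.d1 _ (fun m hm => h.zx_le (by positivity) ?_ hl) s
  have hd : (0 : ℝ) < d := by exact_mod_cast h.d1
  rw [div_le_one hd]
  exact_mod_cast hm

theorem wj : w₀ + (j - r) * z ≤ w := by
  have : (j - r) * z ≤ j * z := Nat.mul_le_mul_right z (Nat.sub_le _ _)
  have := h.hw1
  omega

theorem wr : (1 : ℝ) / 2 ^ (w - (w₀ + (j - r) * z)) ≤ 1 / 2 ^ (r * z) := by
  refine one_div_le_one_div_of_le (by positivity) (pow_le_pow_right₀ one_le_two ?_)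
  have h1 : (j - r) * z + r * z = j * z := by
    rw [← add_mul]
    congr 1
    have := h.nm.j1
    omega
  have := h.hw1
  omega

/-- **A path which is constant.** -/
theorem cst {l : ℕ} (l1 : 1 ≤ l) (ln : l ≤ n) (hg : (gam l - 1) * r + y ≤ 0) {x : ℝ}
    (x0 : 0 ≤ x) (x1 : x ≤ 1) :
    |zx D J w i j r (fun _ => P) x ω l - zx D J w i j r (fun _ => P) 0 ω l| ≤
      Ct * bA K₂ n E * E * (1 / 2 ^ (y * z)) := by
  have hj := h.nm.jM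
  have hi := h.nm.iM
  have hCtA : 0 ≤ Ct * bA K₂ n E := by
    have := h.A1
    have := h.ct1
    positivity
  have h1 := (dif_box h.hO h.hK h.hP h.dP (i := i - 1) (j := j - r) (by omega) (by omega) h.hE
    h.hCt h.pc h.near1 h.hwJ h.wj ln x0 x1).1
  rw [← mul_div_assoc Ct] at h1
  have hf := far_of h.hO h.hlam h.hC₁ h.hc h.nm l1 ln 0 (by
    rw [Nat.cast_zero, zero_add]
    exact hg)
  have h2 := h1.trans (pw1 (u := D.g i j l) (p := y * z) (s := c * z) hCtA h.wr h.hE3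
    (by omega))
  have h3 := up h2
  refine (le_of_eq ?_).trans h3
  rw [zx_eq, zx_eq, zero_mul, add_zero, mul_sub]

/-- **A path is a polynomial of degree `≤ d`.** -/
theorem pol {l : ℕ} (l1 : 1 ≤ l) (ln : l ≤ n) (hg : (gam l - (d + 1)) * r + y ≤ 0) {x : ℝ}
    (x0 : 0 ≤ x) (x1 : x ≤ 1) :
    |zx D J w i j r (fun _ => P) x ω l - (z0 D J w i j r (fun _ => P) ω l +
      ∑ s ∈ Finset.Icc 1 d, x ^ s * bs D J w i j r d (fun _ => P) s ω l)| ≤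
      Ct * bA K₂ n E * E * (1 / 2 ^ (y * z)) := by
  have hj := h.nm.jM
  have hi := h.nm.iM
  have hCtA : 0 ≤ Ct * bA K₂ n E := by
    have := h.A1
    have := h.ct1
    positivity
  have e1 : z0 D J w i j r (fun _ => P) ω l +
      ∑ s ∈ Finset.Icc 1 d, x ^ s * bs D J w i j r d (fun _ => P) s ω l =
      (pt d (fun m : ℕ => zx D J w i j r (fun _ => P) ((m : ℝ) / d) ω l)).eval x := by
    rw [Pool.TC37.pt_sum h.d1, z0_eq, Nat.cast_zero, zero_div]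
    rfl
  have h1 := far h.hO h.hK h.hP h.dP (i := i - 1) (j := j - r) (by omega) (by omega) h.hE
    h.hCd h.pc h.near1 h.hwJ h.wj ln x0 x1
  rw [← mul_div_assoc Ct] at h1
  have hf := far_of h.hO h.hlam h.hC₁ h.hc h.nm l1 ln d hg
  have hw2 : ((1 : ℝ) / 2 ^ (w - (w₀ + (j - r) * z))) ^ (d + 1) ≤
      1 / 2 ^ ((d + 1) * (r * z)) := by
    calc ((1 : ℝ) / 2 ^ (w - (w₀ + (j - r) * z))) ^ (d + 1) ≤ (1 / 2 ^ (r * z)) ^ (d + 1) :=
          pow_le_pow_left₀ (by positivity) h.wr _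
      _ = 1 / 2 ^ ((d + 1) * (r * z)) := by
          rw [div_pow, one_pow, ← pow_mul, mul_comm (r * z)]
  have h2 := h1.trans (pw1 (u := D.g i j l) (p := y * z) (s := c * z) hCtA hw2 h.hE3
    (by omega))
  have h3 := up h2
  refine (le_of_eq ?_).trans h3
  rw [e1, Pool.TC37.pt_eval h.d1, zx_eq, mul_sub, Finset.mul_sum]
  congr 2
  refine Finset.sum_congr rfl fun m _ => ?_
  rw [zx_eq]
  unfold nd
  ring

end Pr1

end

end Pool.TC37L
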