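import Pool.Agent.H37.TT.Cnd
import Pool.Agent.H25.P4.LinA

/-!
# Polynomials on a short window

`tay_d`: a polynomial of degree `≤ N` which is bounded by `A` on a window of length `ρ` is, on the
window of length `h ≤ ρ`, the polynomial of degree `≤ d` with the same values at the nodes
`t₀ + (j / d) h`, `j = 0, …, d`, up to `C A (h / ρ) ^ (d + 1)`.
-/

set_option autoImplicit false

namespace Pool.TC37

open Finset Real Polynomial
open Pool.TT37 (lg lg_deg lg_cf lg_eval ip ip_deg ip_cf)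

/-- The nodes. -/
noncomputable def nd (d : ℕ) (j : Fin (d + 1)) : ℝ := (j : ℕ) / (d : ℝ)

theorem nd_nn (d : ℕ) (j : Fin (d + 1)) : 0 ≤ nd d j := by
  unfold nd
  positivity

theorem nd_le (d : ℕ) (j : Fin (d + 1)) : nd d j ≤ 1 := by
  unfold nd
  rcases Nat.eq_zero_or_pos d with rfl | hd
  · simp
  · rw [div_le_one (by exact_mod_cast hd)]
    exact_mod_cast Nat.lt_succ_iff.1 j.2

theorem nd_sep (d : ℕ) {j k : Fin (d + 1)} (h : k ≠ j) : 1 / ((d : ℝ) + 1) ≤ |nd d j - nd d k| := by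
  have hd : 0 < d := by
    rcases Nat.eq_zero_or_pos d with rfl | hd
    · exact absurd (Fin.ext (by have := k.2; have := j.2; omega)) h
    · exact hd
  have hdr : (0 : ℝ) < d := by exact_mod_cast hd
  unfold nd
  rw [← sub_div, abs_div, abs_of_pos hdr, div_le_div_iff₀ (by positivity) hdr, one_mul]
  have h1 : (1 : ℝ) ≤ |((j : ℕ) : ℝ) - ((k : ℕ) : ℝ)| := by
    have h2 : ((j : ℕ) : ℤ) - ((k : ℕ) : ℤ) ≠ 0 := by
      intro h3
      refine h (Fin.ext ?_)
      omega
    have h3 := Int.one_le_abs h2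
    have h4 : ((|((j : ℕ) : ℤ) - ((k : ℕ) : ℤ)| : ℤ) : ℝ) = |((j : ℕ) : ℝ) - ((k : ℕ) : ℝ)| := by
      push_cast
      rfl
    rw [← h4]
    exact_mod_cast h3
  nlinarith

theorem nd_inj (d : ℕ) : Function.Injective (nd d) := by
  intro j k h
  by_contra hjk
  have h1 := nd_sep d (Ne.symm hjk)
  rw [h, sub_self, abs_zero] at h1
  have : (0 : ℝ) < 1 / ((d : ℝ) + 1) := by positivity
  linarith

/-- The values of a Lagrange polynomial at the nodes. -/
theorem lg_node {d : ℕ} (y : Fin (d + 1) → ℝ) (hy : Function.Injective y) (j l : Fin (d + 1)) :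
    (lg y j).eval (y l) = if j = l then 1 else 0 := by
  rw [lg_eval]
  split_ifs with h
  · subst h
    refine Finset.prod_eq_one fun k _ => ?_
    split_ifs with hk
    · rfl
    · exact inv_mul_cancel₀ (sub_ne_zero.2 fun h => hk (hy h).symm)
  · refine Finset.prod_eq_zero (Finset.mem_univ l) ?_
    rw [if_neg (Ne.symm h), sub_self, mul_zero]

/-- **Reproduction** of the polynomials of degree `≤ d`. -/
theorem ip_rep {d : ℕ} (y : Fin (d + 1) → ℝ) (hy : Function.Injective y) (p : ℝ[X])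
    (hp : p.natDegree ≤ d) : ip y (fun j => p.eval (y j)) = p := by
  refine Polynomial.eq_of_degree_sub_lt_of_eval_finset_eq (Finset.univ.image y) ?_ ?_
  · rw [Finset.card_image_of_injective _ hy, Finset.card_univ, Fintype.card_fin]
    refine lt_of_le_of_lt (Polynomial.degree_sub_le _ _) (max_lt ?_ ?_)
    · exact lt_of_le_of_lt (Polynomial.degree_le_of_natDegree_le (ip_deg y _))
        (by exact_mod_cast Nat.lt_succ_self d)
    · exact lt_of_le_of_lt (Polynomial.degree_le_of_natDegree_le hp)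
        (by exact_mod_cast Nat.lt_succ_self d)
  · intro x hx
    obtain ⟨l, -, rfl⟩ := Finset.mem_image.1 hx
    unfold ip
    rw [Polynomial.eval_finsetSum]
    simp only [eval_mul, eval_C, lg_node y hy, mul_ite, mul_one, mul_zero]
    rw [Finset.sum_ite_eq' Finset.univ l, if_pos (Finset.mem_univ l)]

/-- The bound of the Lagrange polynomials of the nodes. -/
noncomputable def Lc (d : ℕ) : ℝ := (d + 1) * (2 * ((d : ℝ) + 1)) ^ (d + 1)

theorem Lc_one (d : ℕ) : 1 ≤ Lc d := by
  unfold Lc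
  have h1 : (1 : ℝ) ≤ (2 * ((d : ℝ) + 1)) ^ (d + 1) := one_le_pow₀ (by
    have : (0 : ℝ) ≤ d := Nat.cast_nonneg d
    linarith)
  have : (0 : ℝ) ≤ d := Nat.cast_nonneg d
  nlinarith

theorem lg_le (d : ℕ) (j : Fin (d + 1)) {s : ℝ} (s0 : 0 ≤ s) (s1 : s ≤ 1) :
    |(lg (nd d) j).eval s| ≤ Lc d := by
  have hd : (0 : ℝ) < (d : ℝ) + 1 := by positivity
  rw [Polynomial.eval_eq_sum_range' (Nat.lt_succ_of_le (lg_deg (nd d) j))]
  refine (Finset.abs_sum_le_sum_abs _ _).trans ?_
  have h1 : ∀ i ∈ range (d + 1), |(lg (nd d) j).coeff i * s ^ i| ≤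
      (2 * ((d : ℝ) + 1)) ^ (d + 1) := by
    intro i _
    rw [abs_mul, abs_of_nonneg (pow_nonneg s0 i)]
    have h2 := lg_cf (nd d) j (s := 1 / ((d : ℝ) + 1)) (by positivity)
      (by rw [div_le_one hd]; linarith [show (0 : ℝ) ≤ d from Nat.cast_nonneg d])
      (fun k => by rw [abs_of_nonneg (nd_nn d k)]; exact nd_le d k) (fun k hk => nd_sep d hk) i
    have h3 : (2 / (1 / ((d : ℝ) + 1))) = 2 * ((d : ℝ) + 1) := by field_simp
    rw [h3] at h2
    calc |(lg (nd d) j).coeff i| * s ^ i ≤ (2 * ((d : ℝ) + 1)) ^ (d + 1) * 1 :=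
          mul_le_mul h2 (pow_le_one₀ s0 s1) (pow_nonneg s0 i) (by positivity)
      _ = _ := mul_one _
  refine (Finset.sum_le_sum h1).trans (le_of_eq ?_)
  rw [Finset.sum_const, card_range, nsmul_eq_mul]
  unfold Lc
  push_cast
  ring

/-- **A polynomial on a short window.** -/
theorem tay_d (N d : ℕ) : ∃ C : ℝ, 1 ≤ C ∧ ∀ (Q : Polynomial ℝ) (t₀ h ρ A : ℝ), Q.natDegree ≤ N →
    0 ≤ h → 0 < ρ → h ≤ ρ → (∀ t, t₀ ≤ t → t ≤ t₀ + ρ → |Q.eval t| ≤ A) → ∀ s, 0 ≤ s → s ≤ 1 →
    |Q.eval (t₀ + s * h) - ∑ j, (lg (nd d) j).eval s * Q.eval (t₀ + nd d j * h)| ≤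
      C * A * (h / ρ) ^ (d + 1) := by
  obtain ⟨C, hC, hcb⟩ := Pool.KAL.TAY.coef_bound N
  have hL := Lc_one d
  refine ⟨(N + 1) * C * ((d + 2) * Lc d) + 1, by
    have : 0 ≤ ((N : ℝ) + 1) * C * ((d + 2) * Lc d) := by positivity
    linarith, ?_⟩
  intro Q t₀ h ρ A hN h0 hρ hhρ hA s s0 s1
  have hA0 : 0 ≤ A := (abs_nonneg _).trans (hA t₀ le_rfl (by linarith))
  obtain ⟨q, hq⟩ : ∃ q : Polynomial ℝ, q = Q.comp (Polynomial.C t₀ + Polynomial.C ρ *
    Polynomial.X) := ⟨_, rfl⟩
  have hev : ∀ u, q.eval u = Q.eval (t₀ + ρ * u) := fun u => by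
    rw [hq, Polynomial.eval_comp, Polynomial.eval_add, Polynomial.eval_C, Polynomial.eval_mul,
      Polynomial.eval_C, Polynomial.eval_X]
  have hqd : q.natDegree ≤ N := by
    rw [hq]
    refine Polynomial.natDegree_comp_le.trans ?_
    have h1 : (Polynomial.C t₀ + Polynomial.C ρ * Polynomial.X : Polynomial ℝ).natDegree ≤ 1 := by
      refine (Polynomial.natDegree_add_le _ _).trans (max_le ?_ ?_)
      · rw [Polynomial.natDegree_C]
        exact Nat.zero_le _
      · exact (Polynomial.natDegree_C_mul_le _ _).trans Polynomial.natDegree_X_le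
    calc Q.natDegree * _ ≤ N * 1 := Nat.mul_le_mul hN h1
      _ = N := mul_one N
  have hco : ∀ m ≤ N, |q.coeff m| ≤ C * A := hcb q A hqd fun u u0 u1 => by
    rw [hev]
    exact hA _ (by nlinarith) (by nlinarith)
  obtain ⟨e, he⟩ : ∃ e, e = h / ρ := ⟨_, rfl⟩
  have he0 : 0 ≤ e := by rw [he]; positivity
  have he1 : e ≤ 1 := by rw [he, div_le_one hρ]; exact hhρ
  have hre : ∀ u : ℝ, ρ * (u * e) = u * h := fun u => by
    rw [he]
    field_simp
  have E1 : ∀ u : ℝ, Q.eval (t₀ + u * h) = ∑ m ∈ range (N + 1), q.coeff m * e ^ m * u ^ m := by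
    intro u
    have h2 : Q.eval (t₀ + u * h) = q.eval (u * e) := by rw [hev, hre]
    rw [h2, Polynomial.eval_eq_sum_range' (Nat.lt_succ_of_le hqd)]
    refine Finset.sum_congr rfl fun m _ => ?_
    rw [mul_pow]
    ring
  have hCA : 0 ≤ C * A := by positivity
  rw [← he]
  -- the error of a monomial
  have hmono : ∀ m, |s ^ m - ∑ j, (lg (nd d) j).eval s * nd d j ^ m| ≤
      if m ≤ d then 0 else (d + 2) * Lc d := by
    intro m
    split_ifs with hm
    · have h1 := ip_rep (nd d) (nd_inj d) (Polynomial.X ^ m) (by rw [natDegree_X_pow]; exact hm)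
      have h2 : ∑ j, (lg (nd d) j).eval s * nd d j ^ m = s ^ m := by
        have h3 : (ip (nd d) (fun j => ((Polynomial.X : ℝ[X]) ^ m).eval (nd d j))).eval s =
            s ^ m := by rw [h1, eval_pow, eval_X]
        rw [← h3]
        unfold ip
        rw [Polynomial.eval_finsetSum]
        refine Finset.sum_congr rfl fun j _ => ?_
        rw [eval_mul, eval_C]
        beta_reduce
        rw [eval_pow, eval_X]
        ring
      rw [h2, sub_self, abs_zero]
    · refine (abs_sub _ _).trans ?_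
      have h1 : |s ^ m| ≤ 1 := by
        rw [abs_of_nonneg (pow_nonneg s0 m)]
        exact pow_le_one₀ s0 s1
      have h2 : |∑ j, (lg (nd d) j).eval s * nd d j ^ m| ≤ (d + 1) * Lc d := by
        refine (Finset.abs_sum_le_sum_abs _ _).trans ?_
        have h3 : ∀ j ∈ (Finset.univ : Finset (Fin (d + 1))),
            |(lg (nd d) j).eval s * nd d j ^ m| ≤ Lc d := by
          intro j _
          rw [abs_mul, abs_of_nonneg (pow_nonneg (nd_nn d j) m)]
          calc |(lg (nd d) j).eval s| * nd d j ^ m ≤ Lc d * 1 :=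
                mul_le_mul (lg_le d j s0 s1) (pow_le_one₀ (nd_nn d j) (nd_le d j))
                  (pow_nonneg (nd_nn d j) m) (by linarith)
            _ = Lc d := mul_one _
        refine (Finset.sum_le_sum h3).trans (le_of_eq ?_)
        rw [Finset.sum_const, Finset.card_univ, Fintype.card_fin, nsmul_eq_mul]
        push_cast
        ring
      linarith
  have E2 : Q.eval (t₀ + s * h) - ∑ j, (lg (nd d) j).eval s * Q.eval (t₀ + nd d j * h) =
      ∑ m ∈ range (N + 1), q.coeff m * e ^ m *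
        (s ^ m - ∑ j, (lg (nd d) j).eval s * nd d j ^ m) := by
    have e1 : ∑ j, (lg (nd d) j).eval s * Q.eval (t₀ + nd d j * h) =
        ∑ m ∈ range (N + 1), q.coeff m * e ^ m * ∑ j, (lg (nd d) j).eval s * nd d j ^ m := by
      have e2 : ∀ j ∈ (Finset.univ : Finset (Fin (d + 1))),
          (lg (nd d) j).eval s * Q.eval (t₀ + nd d j * h) =
          ∑ m ∈ range (N + 1), q.coeff m * e ^ m * ((lg (nd d) j).eval s * nd d j ^ m) := by
        intro j _
        rw [E1, Finset.mul_sum]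
        refine Finset.sum_congr rfl fun m _ => ?_
        ring
      rw [Finset.sum_congr rfl e2, Finset.sum_comm]
      refine Finset.sum_congr rfl fun m _ => ?_
      rw [Finset.mul_sum]
    rw [e1, E1, ← Finset.sum_sub_distrib]
    refine Finset.sum_congr rfl fun m _ => ?_
    ring
  rw [E2]
  refine (Finset.abs_sum_le_sum_abs _ _).trans ?_
  have h1 : ∀ m ∈ range (N + 1), |q.coeff m * e ^ m *
      (s ^ m - ∑ j, (lg (nd d) j).eval s * nd d j ^ m)| ≤
      C * A * e ^ (d + 1) * ((d + 2) * Lc d) := by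
    intro m hm
    rw [abs_mul, abs_mul, abs_of_nonneg (pow_nonneg he0 m)]
    have h2 := hmono m
    have hK : 0 ≤ ((d : ℝ) + 2) * Lc d := by positivity
    have h3 := hco m (Nat.lt_succ_iff.1 (mem_range.1 hm))
    split_ifs at h2 with hmd
    · have h4 : |s ^ m - ∑ j, (lg (nd d) j).eval s * nd d j ^ m| = 0 :=
        le_antisymm h2 (abs_nonneg _)
      rw [h4, mul_zero]
      positivity
    · have h5 : e ^ m ≤ e ^ (d + 1) := pow_le_pow_of_le_one he0 he1 (by omega)
      exact mul_le_mul (mul_le_mul h3 h5 (pow_nonneg he0 m) hCA) h2 (abs_nonneg _)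
        (by positivity)
  refine (Finset.sum_le_sum h1).trans ?_
  rw [Finset.sum_const, card_range, nsmul_eq_mul]
  push_cast
  have : 0 ≤ A * e ^ (d + 1) := by positivity
  nlinarith

end Pool.TC37
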