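import Pool.Agent.H25.P4.LinD

/-!
# Shifted frames

`shf P P'`: the frame `P` shifted by functions of the time to the center curve of `P'`.
-/

set_option autoImplicit false

namespace Pool.TC37F

open Finset Real MvPolynomial
open Pool.Agent.H49.Ent Pool.Agent.H32.Dense Pool.STK
open Pool.STAT Pool.MIC.Frm Pool.FRM Pool.P4L
open Pool.SYS35 (nrm_nonneg')

/-- A monomial in the time only. -/
def Tm (α : ℕ →₀ ℕ) : Prop := ∀ k, 1 ≤ k → α k = 0

open Classical in
/-- The part of a polynomial which depends only on the time. -/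
noncomputable def tp (F : PN) : PN := ∑ α ∈ F.support.filter Tm, monomial α (coeff α F)

theorem coeff_tp (F : PN) (β : ℕ →₀ ℕ) [Decidable (Tm β)] :
    coeff β (tp F) = if Tm β then coeff β F else 0 := by
  classical
  unfold tp
  rw [coeff_sum]
  simp only [coeff_monomial]
  split_ifs with h
  · by_cases hβ : β ∈ F.support
    · rw [Finset.sum_eq_single_of_mem β (Finset.mem_filter.2 ⟨hβ, h⟩) fun a _ ha => if_neg ha,
        if_pos rfl]
    · rw [Finset.sum_eq_zero, notMem_support_iff.1 hβ]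
      intro a ha
      refine if_neg fun e => ?_
      rw [e] at ha
      exact hβ (Finset.mem_filter.1 ha).1
  · refine Finset.sum_eq_zero fun a ha => if_neg fun e => ?_
    rw [e] at ha
    exact h (Finset.mem_filter.1 ha).2

theorem tp_supp (F : PN) : (tp F).support ⊆ F.support := by
  classical
  intro α hα
  rw [mem_support_iff, coeff_tp] at hα
  rw [mem_support_iff]
  intro h
  apply hα
  split_ifs
  · exact h
  · rfl

theorem tp_tm {F : PN} {α : ℕ →₀ ℕ} (hα : α ∈ (tp F).support) : Tm α := by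
  classical
  rw [mem_support_iff, coeff_tp] at hα
  by_contra h
  rw [if_neg h] at hα
  exact hα rfl

theorem tp_vars (F : PN) : (tp F).vars ⊆ {0} := by
  intro k hk
  obtain ⟨α, hα, hk2⟩ := (mem_vars k).1 hk
  rw [Finset.mem_singleton]
  by_contra h
  have := tp_tm hα k (by omega)
  exact (Finsupp.mem_support_iff.1 hk2) this

/-- The rest. -/
noncomputable def sp (F : PN) : PN := F - tp F

theorem coeff_sp (F : PN) (β : ℕ →₀ ℕ) [Decidable (Tm β)] :
    coeff β (sp F) = if Tm β then 0 else coeff β F := by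
  unfold sp
  rw [coeff_sub, coeff_tp]
  split_ifs
  · rw [sub_self]
  · rw [sub_zero]

theorem sp_supp (F : PN) : (sp F).support ⊆ F.support := by
  classical
  intro α hα
  rw [mem_support_iff, coeff_sp] at hα
  rw [mem_support_iff]
  intro h
  apply hα
  split_ifs
  · rfl
  · exact h

theorem sp_tm {F : PN} {α : ℕ →₀ ℕ} (hα : α ∈ (sp F).support) : ¬ Tm α := by
  classical
  intro h
  rw [mem_support_iff, coeff_sp, if_pos h] at hα
  exact hα rfl

/-- The rest has a smaller norm. -/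
theorem nrm_sp (g : ℕ → ℕ) (F : PN) : nrm g (1 / 2) (sp F) ≤ nrm g (1 / 2) F := by
  classical
  unfold nrm
  refine (Finset.sum_le_sum fun α hα => ?_).trans
    (Finset.sum_le_sum_of_subset_of_nonneg (sp_supp F) fun _ _ _ => by positivity)
  rw [coeff_sp, if_neg (sp_tm hα)]

/-- **A smaller place**: every monomial of the rest gains. -/
theorem nrm_sp_far {g g' : ℕ → ℕ} {m N c s : ℕ} {F : PN} (hv : F.vars ⊆ range m)
    (hN : F.totalDegree ≤ N) (h0 : g' 0 = g 0)
    (hg : ∀ k, 1 ≤ k → k < m → g k + s ≤ g' k + c) :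
    nrm g' (1 / 2) (sp F) ≤ 2 ^ (N * c) / 2 ^ s * nrm g (1 / 2) (sp F) := by
  classical
  unfold nrm
  rw [Finset.mul_sum]
  refine Finset.sum_le_sum fun α hα => ?_
  have h1 := sp_tm hα
  have hαF := sp_supp F hα
  have hlt : ∀ k, α k ≠ 0 → k < m := fun k hk =>
    mem_range.1 (mem_range.2 (Pool.SYS35.vars_of_mem hv hαF (Finsupp.mem_support_iff.2 hk)))
  have hdeg : α.degree ≤ N := by
    rw [Finsupp.degree_apply]
    exact (le_totalDegree hαF).trans hN
  have hw : Finsupp.weight g α + s ≤ Finsupp.weight g' α + N * c := by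
    unfold Tm at h1
    push Not at h1
    obtain ⟨k, k1, hk⟩ := h1
    obtain ⟨γ, hγ⟩ : ∃ γ : ℕ →₀ ℕ, α = Finsupp.single k 1 + γ :=
      ⟨α - Finsupp.single k 1, (add_tsub_cancel_of_le
        (Finsupp.single_le_iff.2 (Nat.one_le_iff_ne_zero.2 hk))).symm⟩
    have hγlt : ∀ i, γ i ≠ 0 → i < m := fun i hi => hlt i (by
      rw [hγ, Finsupp.add_apply]
      omega)
    have h2 := wt_le (d := g') (d' := g) (n := m) (e := c) (γ := γ) hγlt fun i hi => by
      rcases Nat.eq_zero_or_pos i with h3 | h3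
      · rw [h3, h0]
        exact Nat.le_add_right _ _
      · have := hg i h3 hi
        omega
    have h3 := hg k k1 (hlt k hk)
    rw [hγ, map_add, map_add, Finsupp.weight_single, Finsupp.weight_single, one_smul, one_smul]
    have h4 : 1 + γ.degree ≤ N := by
      rw [hγ, map_add, Finsupp.degree_single] at hdeg
      exact hdeg
    have h5 : (1 + γ.degree) * c ≤ N * c := Nat.mul_le_mul_right c h4
    have h6 : (1 + γ.degree) * c = c + γ.degree * c := by ring
    omega
  have e1 : (1 / 2 : ℝ) ^ Finsupp.weight g' α ≤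
      2 ^ (N * c) / 2 ^ s * (1 / 2) ^ Finsupp.weight g α := by
    rw [half_pow, half_pow, div_mul_div_comm, mul_one, div_le_div_iff₀ (by positivity)
      (by positivity), one_mul, ← pow_add, ← pow_add]
    exact pow_le_pow_right₀ one_le_two (by omega)
  calc |coeff α (sp F)| * (1 / 2) ^ Finsupp.weight g' α ≤
      |coeff α (sp F)| * (2 ^ (N * c) / 2 ^ s * (1 / 2) ^ Finsupp.weight g α) :=
        mul_le_mul_of_nonneg_left e1 (abs_nonneg _)
    _ = _ := by ring

/-! ### The shifted frame -/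

/-- The shift, a function of the time. -/
noncomputable def sh1 (n : ℕ) (P P' : ℕ → PN) (l : ℕ) : PN :=
  if l ≤ n then -bind₁ (fun k => (X k - P' k : PN)) (tp (chr P' (P l - P' l))) else 0

/-- **The shifted frame.** -/
noncomputable def shf (n : ℕ) (P P' : ℕ → PN) (l : ℕ) : PN :=
  if l = 0 then P' 0 else P l + sh1 n P P' l

theorem shf_zero (n : ℕ) (P P' : ℕ → PN) : shf n P P' 0 = P' 0 := if_pos rfl

theorem shf_pos (n : ℕ) (P P' : ℕ → PN) {l : ℕ} (hl : 1 ≤ l) :
    shf n P P' l = P l + sh1 n P P' l := if_neg (by omega)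

theorem sh1_of {n : ℕ} (P P' : ℕ → PN) {l : ℕ} (hl : l ≤ n) :
    sh1 n P P' l = -bind₁ (fun k => (X k - P' k : PN)) (tp (chr P' (P l - P' l))) := if_pos hl

section

variable {n : ℕ} {P P' : ℕ → PN}

theorem sh1_vars (hP' : TriN P') (l : ℕ) : (sh1 n P P' l).vars ⊆ {0} := by
  classical
  unfold sh1
  split_ifs
  · rw [vars_neg]
    refine (vars_bind₁ _ _).trans ?_
    intro k hk
    obtain ⟨i, hi, hk2⟩ := Finset.mem_biUnion.1 hk
    have h0 := Finset.mem_singleton.1 (tp_vars _ hi)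
    rw [h0] at hk2
    have h1 := vars_sub_subset (X 0 : PN) hk2
    rw [Finset.mem_union, vars_X] at h1
    rcases h1 with h1 | h1
    · exact h1
    · exact absurd (mem_range.1 (hP' 0 h1)) (Nat.not_lt_zero _)
  · rw [vars_0]
    exact Finset.empty_subset _

/-- The shift depends only on the time. -/
theorem sh1_eval (hP' : TriN P') (l : ℕ) {b b' : ℕ → ℝ} (h : b 0 = b' 0) :
    eval b (sh1 n P P' l) = eval b' (sh1 n P P' l) := by
  refine Pool.SYS35.eval_congr (n := 1) ?_ fun i hi => ?_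
  · refine (sh1_vars hP' l).trans ?_
    rw [Finset.singleton_subset_iff, mem_range]
    exact one_pos
  · have : i = 0 := by omega
    rw [this, h]

theorem shf_tri (hP : TriN P) (hP' : TriN P') : TriN (shf n P P') := by
  classical
  intro l
  rcases Nat.eq_zero_or_pos l with h0 | h0
  · rw [h0, shf_zero]
    exact hP' 0
  · rw [shf_pos n P P' h0]
    refine (vars_add_subset _ _).trans (Finset.union_subset (hP l)
      ((sh1_vars hP' l).trans ?_))
    rw [Finset.singleton_subset_iff, mem_range]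
    exact h0

theorem sh1_deg {K : ℕ} (hP : TriN P) (hP' : TriN P') (dP : ∀ l, (P l).totalDegree ≤ K)
    (dP' : ∀ l, (P' l).totalDegree ≤ K) (l : ℕ) :
    (sh1 n P P' l).totalDegree ≤ K * (K + 1) ^ n := by
  unfold sh1
  split_ifs with hl
  · rw [totalDegree_neg]
    have hv : (P l - P' l).vars ⊆ range l := AdxRow.vars_sub_le (hP l) (hP' l)
    have h1 : (chr P' (P l - P' l)).totalDegree ≤ K * (K + 1) ^ n :=
      (chr_deg (K := K) (K' := K) hP' (fun k _ => dP' k) hv ((totalDegree_sub _ _).trans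
        (max_le (dP l) (dP' l)))).trans
        (Nat.mul_le_mul_left _ (Nat.pow_le_pow_right (by omega) hl))
    have h2 : (tp (chr P' (P l - P' l))).totalDegree ≤ K * (K + 1) ^ n := by
      refine le_trans ?_ h1
      exact Finset.sup_mono (tp_supp _)
    refine (Dgb.deg_bind (B := 1) fun k hk => ?_).trans (by rw [mul_one]; exact h2)
    have h0 := Finset.mem_singleton.1 (tp_vars _ hk)
    rw [h0]
    refine (totalDegree_sub _ _).trans (max_le ?_ ?_)
    · rw [totalDegree_X]
    · have h3 : (P' 0).vars = ∅ := Finset.subset_empty.1 (by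
        have := hP' 0
        rwa [Finset.range_zero] at this)
      have h4 : P' 0 = C (coeff 0 (P' 0)) := by
        have := (totalDegree_eq_zero_iff_eq_C (p := P' 0)).1 (by
          rw [totalDegree_eq_zero_iff]
          intro m hm x
          by_contra hx
          have : x ∈ (P' 0).vars := (mem_vars x).2 ⟨m, hm, Finsupp.mem_support_iff.2 hx⟩
          rw [h3] at this
          exact Finset.notMem_empty _ this)
        exact this
      rw [h4, totalDegree_C]
      exact Nat.zero_le _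
  · rw [totalDegree_zero]
    exact Nat.zero_le _

theorem shf_deg {K : ℕ} (hP : TriN P) (hP' : TriN P') (dP : ∀ l, (P l).totalDegree ≤ K)
    (dP' : ∀ l, (P' l).totalDegree ≤ K) (l : ℕ) :
    (shf n P P' l).totalDegree ≤ K + K * (K + 1) ^ n := by
  rcases Nat.eq_zero_or_pos l with h0 | h0
  · rw [h0, shf_zero]
    exact (dP' 0).trans (Nat.le_add_right _ _)
  · rw [shf_pos n P P' h0]
    refine (totalDegree_add _ _).trans (max_le ((dP l).trans (Nat.le_add_right _ _))
      ((sh1_deg hP hP' dP dP' l).trans (Nat.le_add_left _ _)))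

theorem chr_shf (hP' : TriN P') {l : ℕ} (hl : 1 ≤ l) (hln : l ≤ n) :
    chr P' (shf n P P' l - P' l) = sp (chr P' (P l - P' l)) := by
  have h1 : chr P' (sh1 n P P' l) = -tp (chr P' (P l - P' l)) := by
    rw [sh1_of P P' hln]
    have h2 := chr_inv hP' (tp (chr P' (P l - P' l)))
    unfold chr at h2 ⊢
    rw [map_neg, h2]
  rw [shf_pos n P P' hl]
  have e : P l + sh1 n P P' l - P' l = (P l - P' l) + sh1 n P P' l := by ring
  rw [e, chr_add, h1]
  unfold sp
  ring

/-- The norm of the difference, near places. -/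
theorem nrm_shf (hP' : TriN P') {l : ℕ} (hln : l ≤ n) (g : ℕ → ℕ) {S : ℝ} (hS : 0 ≤ S)
    (h : nrm g (1 / 2) (chr P' (P l - P' l)) ≤ S / 2 ^ g l) :
    nrm g (1 / 2) (chr P' (shf n P P' l - P' l)) ≤ S / 2 ^ g l := by
  rcases Nat.eq_zero_or_pos l with h0 | h0
  · rw [h0, shf_zero, sub_self]
    have : nrm g (1 / 2) (chr P' (0 : PN)) = 0 := by
      unfold chr nrm
      rw [map_zero, support_zero, Finset.sum_empty]
    rw [this]
    positivity
  · rw [chr_shf hP' h0 hln]
    exact (nrm_sp g _).trans h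

/-- The norm of the difference, smaller places. -/
theorem nrm_shf_far (hP : TriN P) (hP' : TriN P') {K : ℕ} (dP : ∀ l, (P l).totalDegree ≤ K)
    (dP' : ∀ l, (P' l).totalDegree ≤ K) {g g' : ℕ → ℕ} {c s : ℕ} {l : ℕ}
    (hln : l ≤ n) (h0 : g' 0 = g 0) (hg : ∀ k, 1 ≤ k → k ≤ n → g k + s ≤ g' k + c)
    (hl : g' l ≤ g l + s + c) {S : ℝ} (hS : 0 ≤ S)
    (h : nrm g (1 / 2) (chr P' (P l - P' l)) ≤ S / 2 ^ g l) :
    nrm g' (1 / 2) (chr P' (shf n P P' l - P' l)) ≤
      S * 2 ^ ((K * (K + 1) ^ n + 1) * c) / 2 ^ g' l := by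
  rcases Nat.eq_zero_or_pos l with h1 | h1
  · rw [h1, shf_zero, sub_self]
    have : nrm g' (1 / 2) (chr P' (0 : PN)) = 0 := by
      unfold chr nrm
      rw [map_zero, support_zero, Finset.sum_empty]
    rw [this]
    positivity
  rw [chr_shf hP' h1 hln]
  have hv : (P l - P' l).vars ⊆ range l := AdxRow.vars_sub_le (hP l) (hP' l)
  have hd : (chr P' (P l - P' l)).totalDegree ≤ K * (K + 1) ^ n :=
    (chr_deg (K := K) (K' := K) hP' (fun k _ => dP' k) hv ((totalDegree_sub _ _).trans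
      (max_le (dP l) (dP' l)))).trans
      (Nat.mul_le_mul_left _ (Nat.pow_le_pow_right (by omega) hln))
  have h2 := nrm_sp_far (m := l) (g := g) (g' := g') (c := c) (s := s) (chr_vars hP' hv) hd h0
    (fun k k1 kl => hg k k1 (by omega))
  refine h2.trans ?_
  have h3 := (nrm_sp g (chr P' (P l - P' l))).trans h
  calc 2 ^ (K * (K + 1) ^ n * c) / 2 ^ s * nrm g (1 / 2) (sp (chr P' (P l - P' l))) ≤
      2 ^ (K * (K + 1) ^ n * c) / 2 ^ s * (S / 2 ^ g l) :=
        mul_le_mul_of_nonneg_left h3 (by positivity)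
    _ = S * 2 ^ (K * (K + 1) ^ n * c) * (1 / (2 ^ s * 2 ^ g l)) := by
        field_simp
    _ ≤ S * 2 ^ (K * (K + 1) ^ n * c) * (2 ^ c / 2 ^ g' l) := by
        refine mul_le_mul_of_nonneg_left ?_ (by positivity)
        rw [div_le_div_iff₀ (by positivity) (by positivity), one_mul, ← pow_add, ← pow_add]
        exact pow_le_pow_right₀ one_le_two (by omega)
    _ = S * 2 ^ ((K * (K + 1) ^ n + 1) * c) / 2 ^ g' l := by
        rw [add_mul, one_mul, pow_add]
        ring

end

/-! ### Nearness -/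

/-- `P'` near to `Φ` and to `Q`, in its chart: `Q` is near to `Φ`, in its chart. -/
theorem near_tr (K m : ℕ) : ∃ (C : ℝ) (N : ℕ), 1 ≤ C ∧ ∀ (g : ℕ → ℕ) (Φ P' Q : ℕ → PN) (B : ℝ),
    TriN Φ → TriN P' → TriN Q → (∀ l, (Φ l).totalDegree ≤ K) → (∀ l, (P' l).totalDegree ≤ K) →
    (∀ l, (Q l).totalDegree ≤ K) → 1 ≤ B →
    (∀ l < m, nrm g (1 / 2) (chr P' (Φ l - P' l)) ≤ B / 2 ^ g l) →
    (∀ l < m, nrm g (1 / 2) (chr P' (Q l - P' l)) ≤ B / 2 ^ g l) →
    ∀ l < m, nrm g (1 / 2) (chr Q (Φ l - Q l)) ≤ C * B ^ N / 2 ^ g l := by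
  obtain ⟨C, N, hC, h⟩ := sys_near K m
  refine ⟨C * C ^ N, N * N, by
    have : 1 ≤ C ^ N := one_le_pow₀ hC
    nlinarith, ?_⟩
  intro g Φ P' Q B tΦ tP tQ dΦ dP dQ hB h1 h2
  have z : ∀ (R : ℕ → PN) (l : ℕ), nrm g (1 / 2) (chr R (R l - R l)) = 0 := fun R l => by
    unfold chr nrm
    rw [sub_self, map_zero, support_zero, Finset.sum_empty]
  have hCB : 1 ≤ C * B ^ N := by
    have h3 : 1 ≤ B ^ N := one_le_pow₀ hB
    nlinarith
  -- symmetry
  have s1 := h g Φ P' Φ B tΦ tP tΦ dΦ dP dΦ hB h1 (fun l _ => by rw [z]; positivity)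
  have s2 := h g Q P' Q B tQ tP tQ dQ dP dQ hB h2 (fun l _ => by rw [z]; positivity)
  have s3 := h g P' Φ Q (C * B ^ N) tP tΦ tQ dP dΦ dQ hCB s1 s2
  intro l hl
  refine (s3 l hl).trans (le_of_eq ?_)
  rw [mul_pow, ← pow_mul]
  ring

end Pool.TC37F
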