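import Pool.Agent.H37.TC.Lvo

/-!
# Lines over a closed frame, with a threshold: two samples of a cell
-/

set_option autoImplicit false

namespace Pool.TC37L

open Finset Real MvPolynomial
open Pool.Agent.H49.Ent Pool.Agent.H32.Dense Pool.STK
open Pool.STAT Pool.MIC.Frm Pool.FRM Pool.P4 Pool.P4L

section

variable {D : NDat2} {n K J a₀ w₀ z M : ℕ} {lam gam : ℕ → ℝ} {κ C₁ : ℝ} {q : D.Ω → ℝ}

/-- The hypothesis on the constant of the Taylor lemma. -/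
def TayC (N : ℕ) (Ct : ℝ) : Prop := ∀ (Q : Polynomial ℝ) (t₀ h ρ A : ℝ),
  Q.natDegree ≤ N → 0 ≤ h → 0 < ρ → h ≤ ρ →
  (∀ t, t₀ ≤ t → t ≤ t₀ + ρ → |Q.eval t| ≤ A) → ∀ s, 0 ≤ s → s ≤ 1 →
  |Q.eval (t₀ + s * h) - Q.eval t₀| ≤ Ct * A * (h / ρ) ∧
  |Q.eval (t₀ + s * h) - Q.eval t₀ - s * (Q.eval (t₀ + h) - Q.eval t₀)| ≤
    Ct * A * (h / ρ) ^ 2

/-- The size of a path in a near chart. -/
noncomputable def bA (K₂ n : ℕ) (E : ℝ) : ℝ := (4 * E) ^ dd (K₂ * (K₂ + 1) ^ n) n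

theorem gen (hO : D.Ok2 n K J a₀ w₀ z M lam gam κ C₁ q) {K₂ : ℕ} (hK : K ≤ K₂) {Q : ℕ → PN}
    (hQ : TriN Q) (dQ : ∀ l, (Q l).totalDegree ≤ K₂) {E : ℝ} (hE : exp z ≤ E) {Ct : ℝ}
    (hCt : TayC ((K₂ + 1) * (K + 1)) Ct) {i₁ j₁ : ℕ} (hi : i₁ ≤ M) (hj : j₁ ≤ M) {w : ℕ}
    (hwJ : w ≤ J) (hjw : w₀ + j₁ * z ≤ w) {υ : D.Ω} (hυ : PthC D n w₀ z M 1 υ)
    (nr : ∀ l ≤ n, nrm (D.g i₁ j₁) (1 / 2) (chr Q (D.Φ i₁ j₁ υ l - Q l)) ≤ E / 2 ^ D.g i₁ j₁ l)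
    {t : ℝ} (ht : t0 D J w υ = t) {x : ℝ} (x0 : 0 ≤ x) (x1 : x ≤ 1) {l : ℕ} (hl : l ≤ n) :
    |zs Q (pp D (D.ln υ) (t + x * (1 / 2 ^ w))) l| ≤ bA K₂ n E / 2 ^ D.g i₁ j₁ l ∧
    |zs Q (pp D (D.ln υ) (t + x * (1 / 2 ^ w))) l - zs Q (pp D (D.ln υ) t) l| ≤
      Ct * bA K₂ n E / 2 ^ D.g i₁ j₁ l * (1 / 2 ^ (w - (w₀ + j₁ * z))) := by
  obtain ⟨s0, s1, sX⟩ := tms hO hwJ υ
  rw [ht] at sX
  have hpw0 : (0 : ℝ) < 1 / 2 ^ w := by positivity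
  have hq1 : (1 : ℝ) / 2 ^ w ≤ 1 / 2 ^ (w₀ + j₁ * z) :=
    one_div_le_one_div_of_le (by positivity) (pow_le_pow_right₀ one_le_two hjw)
  have hs1 : rt D J w υ * (1 / 2 ^ w) ≤ 1 / 2 ^ w := by
    calc rt D J w υ * (1 / 2 ^ w) ≤ 1 * (1 / 2 ^ w) := mul_le_mul_of_nonneg_right s1 hpw0.le
      _ = 1 / 2 ^ w := one_mul _
  have hs0 : 0 ≤ rt D J w υ * (1 / 2 ^ w) := by positivity
  have hx1 : x * (1 / 2 ^ w) ≤ 1 / 2 ^ w := by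
    calc x * (1 / 2 ^ w) ≤ 1 * (1 / 2 ^ w) := mul_le_mul_of_nonneg_right x1 hpw0.le
      _ = 1 / 2 ^ w := one_mul _
  have hx0 : 0 ≤ x * (1 / 2 ^ w) := by positivity
  refine ⟨in_box hO hK hQ dQ (i := i₁) (j := j₁) hi hj hE hυ nr
    (t := t + x * (1 / 2 ^ w)) (by
      rw [abs_le]
      constructor <;> linarith) l hl, ?_⟩
  have h := (dif_box hO hK hQ dQ (i := i₁) (j := j₁) hi hj hE hCt hυ nr hwJ hjw hl x0 x1).1
  rw [ht, ← mul_div_assoc Ct] at h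
  exact h

/-- The systems of a cell: `P` a frame at the places around `(i, j)`, `Q` the own closed frame of the
sample `ω`. -/
structure Sys (D : NDat2) (n K₂ z M i j r a : ℕ) (E S : ℝ) (P Q : ℕ → PN) (ω : D.Ω) : Prop where
  hP : TriN P
  hQ : TriN Q
  dP : ∀ l, (P l).totalDegree ≤ K₂
  dQ : ∀ l, (Q l).totalDegree ≤ K₂
  nQ : ∀ i' < M, ∀ j' < M, ∀ l ≤ n,
    nrm (D.g i' j') (1 / 2) (chr Q (D.Φ i' j' ω l - Q l)) ≤ E / 2 ^ D.g i' j' l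
  W0 : ∀ l ≤ n, nrm (D.g i j) (1 / 2) (chr Q (P l - Q l)) ≤ S / 2 ^ D.g i j l
  W1 : ∀ l ≤ n, nrm (D.g (i - 1) (j - r)) (1 / 2) (chr Q (P l - Q l)) ≤
    S / 2 ^ D.g (i - 1) (j - r) l
  W2 : ∀ l ≤ n, nrm (D.g (i - a) j) (1 / 2) (chr Q (P l - Q l)) ≤ S / 2 ^ D.g (i - a) j l

/-- The final constant. -/
noncomputable def bZ (N l : ℕ) (B S' : ℝ) : ℝ :=
  2 * B + (exs l N).card * (4 * B ^ (l * N + 1) * S')

variable {c y r a i j K₂ N : ℕ} {P Q : ℕ → PN} {E S S' Ct : ℝ} {ω ω' : D.Ω} {w s : ℕ}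
  {sl mv : ℕ → Prop}

/-- The data of two samples. -/
structure Pr2 (D : NDat2) (n K J a₀ w₀ z M : ℕ) (lam gam : ℕ → ℝ) (κ C₁ : ℝ) (q : D.Ω → ℝ)
    (c y r a i j K₂ N : ℕ) (P Q : ℕ → PN) (E S S' Ct : ℝ) (ω ω' : D.Ω) (w s : ℕ) : Prop where
  hO : D.Ok2 n K J a₀ w₀ z M lam gam κ C₁ q
  hlam : ∀ l, 1 ≤ l → l ≤ n → lam l = 1
  hC₁ : 0 ≤ C₁
  hc : 4 * C₁ + 1 ≤ c
  nm : Nm n y r a M i j
  iM : i < M
  jM : j < M
  hK : K ≤ K₂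
  hN : N = K₂ * (K₂ + 1) ^ n
  sy : Sys D n K₂ z M i j r a E S P Q ω
  hE : exp z ≤ E
  hE3 : (2 : ℝ) ^ (c * z) ≤ E
  ct1 : 1 ≤ Ct
  hCt : TayC ((K₂ + 1) * (K + 1)) Ct
  S0 : 0 ≤ S
  hS' : S * E ^ (n * N + 3) = S'
  hwJ : w ≤ J
  hw1 : w₀ + j * z ≤ w
  pc : PthC D n w₀ z M 1 ω
  pc' : PthC D n w₀ z M 1 ω'
  c0 : D.c i j ω' = D.c i j ω
  cs : D.c (i + s) (j - r) ω' = D.c (i + s) (j - r) ω
  et : t0 D J w ω' = t0 D J w ω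
  sM : i + s < M

namespace Pr2

variable (h : Pr2 D n K J a₀ w₀ z M lam gam κ C₁ q c y r a i j K₂ N P Q E S S' Ct ω ω' w s)

include h

theorem E1 : 1 ≤ E := (one_le_exp (Nat.cast_nonneg z)).trans h.hE

theorem A1 : 1 ≤ bA K₂ n E := by
  unfold bA
  exact one_le_pow₀ (by linarith [h.E1])

theorem AE : bA K₂ n E * E ≤ Ct * bA K₂ n E * E := by
  have h1 := h.A1
  have h2 := h.E1
  have h3 := h.ct1
  have : 0 ≤ bA K₂ n E * E := by positivity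
  nlinarith

theorem AB : bA K₂ n E ≤ Ct * bA K₂ n E * E :=
  (le_mul_of_one_le_right (by linarith [h.A1]) h.E1).trans h.AE

theorem B1 : 1 ≤ Ct * bA K₂ n E * E := h.A1.trans h.AB

theorem SS : S ≤ S' := by
  rw [← h.hS']
  exact le_mul_of_one_le_right h.S0 (one_le_pow₀ h.E1)

theorem S'0 : 0 ≤ S' := h.S0.trans h.SS

theorem Sp : S * 2 ^ ((n * N + 3) * (c * z)) ≤ S' := by
  rw [← h.hS']
  refine mul_le_mul_of_nonneg_left ?_ h.S0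
  rw [mul_comm (n * N + 3), pow_mul]
  exact pow_le_pow_left₀ (by positivity) h.hE3 _

theorem vF (l : ℕ) : (chr Q (P l - Q l)).vars ⊆ range l :=
  chr_vars h.sy.hQ (AdxRow.vars_sub_le (h.sy.hP l) (h.sy.hQ l))

theorem dF {l : ℕ} (hl : l ≤ n) : (chr Q (P l - Q l)).totalDegree ≤ N := by
  refine (chr_deg (K := K₂) (K' := K₂) h.sy.hQ (fun k _ => h.sy.dQ k)
    (AdxRow.vars_sub_le (h.sy.hP l) (h.sy.hQ l)) ((totalDegree_sub _ _).trans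
      (max_le (h.sy.dP l) (h.sy.dQ l)))).trans ?_
  rw [h.hN]
  exact Nat.mul_le_mul_left _ (Nat.pow_le_pow_right (by omega) hl)

/-- Sizes at the base place. -/
theorem g0 {x : ℝ} (x0 : 0 ≤ x) (x1 : x ≤ 1) {l : ℕ} (hl : l ≤ n) :
    |zs Q (pp D (D.ln ω) (t0 D J w ω + x * (1 / 2 ^ w))) l| ≤
      Ct * bA K₂ n E * E / 2 ^ D.g i j l ∧
    |zs Q (pp D (D.ln ω') (t0 D J w ω + x * (1 / 2 ^ w))) l| ≤
      Ct * bA K₂ n E * E / 2 ^ D.g i j l := by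
  have nr := h.sy.nQ i h.iM j h.jM
  have h1 := (gen h.hO h.hK h.sy.hQ h.sy.dQ h.hE h.hCt h.iM.le h.jM.le h.hwJ h.hw1 h.pc nr rfl
    x0 x1 hl).1
  have h2 := (gen h.hO h.hK h.sy.hQ h.sy.dQ h.hE h.hCt h.iM.le h.jM.le h.hwJ h.hw1 h.pc'
    (fun l hl => by
      have := nr l hl
      unfold NDat2.Φ at this ⊢
      rw [h.c0]
      exact this) h.et x0 x1 hl).1
  exact ⟨h1.trans (div_le_div_of_nonneg_right h.AB (by positivity)),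
    h2.trans (div_le_div_of_nonneg_right h.AB (by positivity))⟩

theorem wj : w₀ + (j - r) * z ≤ w := by
  have : (j - r) * z ≤ j * z := Nat.mul_le_mul_right z (Nat.sub_le _ _)
  have := h.hw1
  omega

theorem wr : (1 : ℝ) / 2 ^ (w - (w₀ + (j - r) * z)) ≤ 1 / 2 ^ (r * z) := by
  refine one_div_le_one_div_of_le (by positivity) (pow_le_pow_right₀ one_le_two ?_)
  have h1 : (j - r) * z + r * z = j * z := by
    rw [← add_mul]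
    congr 1
    have := h.nm.j1
    omega
  have := h.hw1
  omega

/-- Sizes at the place of the context. -/
theorem gs {x : ℝ} (x0 : 0 ≤ x) (x1 : x ≤ 1) {l : ℕ} (hl : l ≤ n) :
    (|zs Q (pp D (D.ln ω) (t0 D J w ω + x * (1 / 2 ^ w))) l| ≤
      bA K₂ n E / 2 ^ D.g (i + s) (j - r) l ∧
    |zs Q (pp D (D.ln ω') (t0 D J w ω + x * (1 / 2 ^ w))) l| ≤
      bA K₂ n E / 2 ^ D.g (i + s) (j - r) l) ∧
    (|zs Q (pp D (D.ln ω) (t0 D J w ω + x * (1 / 2 ^ w))) l -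
        zs Q (pp D (D.ln ω) (t0 D J w ω)) l| ≤
      Ct * bA K₂ n E / 2 ^ D.g (i + s) (j - r) l * (1 / 2 ^ (w - (w₀ + (j - r) * z))) ∧
    |zs Q (pp D (D.ln ω') (t0 D J w ω + x * (1 / 2 ^ w))) l -
        zs Q (pp D (D.ln ω') (t0 D J w ω)) l| ≤
      Ct * bA K₂ n E / 2 ^ D.g (i + s) (j - r) l * (1 / 2 ^ (w - (w₀ + (j - r) * z)))) := by
  have hj : j - r < M := by
    have := h.jM
    omega
  have nr := h.sy.nQ (i + s) h.sM (j - r) hj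
  have h1 := gen h.hO h.hK h.sy.hQ h.sy.dQ h.hE h.hCt h.sM.le hj.le h.hwJ h.wj h.pc nr rfl
    x0 x1 hl
  have h2 := gen h.hO h.hK h.sy.hQ h.sy.dQ h.hE h.hCt h.sM.le hj.le h.hwJ h.wj h.pc'
    (fun l hl => by
      have := nr l hl
      unfold NDat2.Φ at this ⊢
      rw [h.cs]
      exact this) h.et x0 x1 hl
  exact ⟨⟨h1.1, h2.1⟩, h1.2, h2.2⟩

theorem c00 (t : ℝ) : zs Q (pp D (D.ln ω) t) 0 = zs Q (pp D (D.ln ω') t) 0 :=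
  zs_congr (m := 1) h.sy.hQ (fun k hk => by
    have : k = 0 := by omega
    rw [this, pp_zero, pp_zero]) one_pos

theorem sml {k : ℕ} (k1 : 1 ≤ k) (kn : k ≤ n) (hk : gam k * r + y ≤ s) {x : ℝ}
    (hx : |x| ≤ bA K₂ n E / 2 ^ D.g (i + s) (j - r) k) :
    |x| ≤ Ct * bA K₂ n E * E * (1 / 2 ^ (y * z)) / 2 ^ D.g i j k := by
  refine hx.trans ((pw0 (u := D.g i j k) (p := y * z) (s := c * z) (by linarith [h.A1]) h.hE3
    (at_of h.hO h.hlam h.hC₁ h.hc h.nm k1 kn h.sM.le hk)).trans ?_)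
  exact div_le_div_of_nonneg_right (mul_le_mul_of_nonneg_right h.AE (by positivity))
    (by positivity)

theorem smv {k : ℕ} (k1 : 1 ≤ k) (kn : k ≤ n) (hk : (gam k - 1) * r + y ≤ s) {x : ℝ}
    (hx : |x| ≤ Ct * bA K₂ n E / 2 ^ D.g (i + s) (j - r) k *
      (1 / 2 ^ (w - (w₀ + (j - r) * z)))) :
    |x| ≤ Ct * bA K₂ n E * E * (1 / 2 ^ (y * z)) / 2 ^ D.g i j k := by
  have hCtA : 0 ≤ Ct * bA K₂ n E := by
    have := h.A1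
    have := h.ct1
    positivity
  exact hx.trans (pw1 (u := D.g i j k) (p := y * z) (s := c * z) hCtA h.wr h.hE3
    (vl_of h.hO h.hlam h.hC₁ h.hc h.nm k1 kn h.sM.le hk))

/-- **Small coordinates.** -/
theorem one_t (hsl : ∀ k, 1 ≤ k → k ≤ n → sl k → gam k * r + y ≤ s) (hs0 : ∀ k, sl k → 1 ≤ k)
    {l : ℕ} (l1 : 1 ≤ l) (ln : l ≤ n) (hl : sl l)
    (hp : ∀ k, 1 ≤ k → k ≤ n → ¬ sl k → (gam l - gam k) * r + y ≤ 0) {x : ℝ} (x0 : 0 ≤ x)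
    (x1 : x ≤ 1) :
    |zs P (pp D (D.ln ω) (t0 D J w ω + x * (1 / 2 ^ w))) l -
      zs P (pp D (D.ln ω') (t0 D J w ω + x * (1 / 2 ^ w))) l| ≤
      bZ N l (Ct * bA K₂ n E * E) S' * (1 / 2 ^ (y * z)) / 2 ^ D.g i j l := by
  have hlv := lv2_of h.hO h.hlam h.hC₁ h.hc h.nm
  have hδ0 : (0 : ℝ) ≤ 1 / 2 ^ (y * z) := by positivity
  have h1 := core_one (sl := sl) h.sy.hQ (h.vF l) (h.dF ln) h.B1 h.S'0 hδ0
    (fun α => sm_nat (h.sy.W0 l ln) h.SS α)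
    (fun α hα ha hn => by
      rcases (hlv.sm (sl := sl) (mv := fun _ => False) h.S0 l1 ln (h.sy.W1 l ln)
        (h.sy.W2 l ln) hα (fun k k1 kn hk => Or.inl
          (pa_of h.hO h.hlam h.hC₁ h.hc h.nm l1 ln k1 kn (hp k k1 kn hk))) ha hn) with h2 | h2
      · exact h2.mono h.Sp hδ0
      · obtain ⟨k, -, h3, -⟩ := h2
        exact h3.elim)
    (x := pp D (D.ln ω) (t0 D J w ω + x * (1 / 2 ^ w)))
    (x' := pp D (D.ln ω') (t0 D J w ω + x * (1 / 2 ^ w)))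
    (fun k hk => (h.g0 x0 x1 (by omega)).1) (fun k hk => (h.g0 x0 x1 (by omega)).2) (h.c00 _)
    (fun k hk hs => h.sml (hs0 k hs) (by omega) (hsl k (hs0 k hs) (by omega) hs)
      (h.gs x0 x1 (by omega)).1.1)
    (fun k hk hs => h.sml (hs0 k hs) (by omega) (hsl k (hs0 k hs) (by omega) hs)
      (h.gs x0 x1 (by omega)).1.2)
    (h.sml l1 ln (hsl l l1 ln hl) (h.gs x0 x1 ln).1.1)
    (h.sml l1 ln (hsl l l1 ln hl) (h.gs x0 x1 ln).1.2)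
  refine h1.trans (div_le_div_of_nonneg_right (mul_le_mul_of_nonneg_right ?_ hδ0)
    (by positivity))
  unfold bZ
  have hB := h.B1
  have hS := h.S'0
  have h3 : (Ct * bA K₂ n E * E) ^ (l * N) ≤ (Ct * bA K₂ n E * E) ^ (l * N + 1) :=
    pow_le_pow_right₀ hB (Nat.le_succ _)
  have h4 : 0 ≤ (Ct * bA K₂ n E * E) ^ (l * N) := by positivity
  have h5 : 2 * (Ct * bA K₂ n E * E) ^ (l * N) * S' ≤
      4 * (Ct * bA K₂ n E * E) ^ (l * N + 1) * S' :=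
    mul_le_mul_of_nonneg_right (by linarith) hS
  have h6 := mul_le_mul_of_nonneg_left h5 (Nat.cast_nonneg (α := ℝ) (exs l N).card)
  linarith

/-- **Velocities.** -/
theorem two_t (hsl : ∀ k, 1 ≤ k → k ≤ n → sl k → gam k * r + y ≤ s) (hs0 : ∀ k, sl k → 1 ≤ k)
    (hmv : ∀ k, 1 ≤ k → k ≤ n → mv k → (gam k - 1) * r + y ≤ s)
    {l : ℕ} (l1 : 1 ≤ l) (ln : l ≤ n) (hl : mv l)
    (hp : ∀ k, 1 ≤ k → k ≤ n → ¬ sl k → (gam l - gam k) * r + y ≤ 0 ∨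
      (mv k ∧ (gam l - gam k - 1) * r + y ≤ 0)) {x : ℝ} (x0 : 0 ≤ x) (x1 : x ≤ 1) :
    |(zs P (pp D (D.ln ω) (t0 D J w ω + x * (1 / 2 ^ w))) l -
        zs P (pp D (D.ln ω) (t0 D J w ω)) l) -
      (zs P (pp D (D.ln ω') (t0 D J w ω + x * (1 / 2 ^ w))) l -
        zs P (pp D (D.ln ω') (t0 D J w ω)) l)| ≤
      bZ N l (Ct * bA K₂ n E * E) S' * (1 / 2 ^ (y * z)) / 2 ^ D.g i j l := by
  have hlv := lv2_of h.hO h.hlam h.hC₁ h.hc h.nm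
  have hδ0 : (0 : ℝ) ≤ 1 / 2 ^ (y * z) := by positivity
  have e0 : t0 D J w ω = t0 D J w ω + 0 * (1 / 2 ^ w) := by ring
  have z1 : ∀ k ≤ n, |zs Q (pp D (D.ln ω) (t0 D J w ω)) k| ≤
      Ct * bA K₂ n E * E / 2 ^ D.g i j k ∧
      |zs Q (pp D (D.ln ω') (t0 D J w ω)) k| ≤ Ct * bA K₂ n E * E / 2 ^ D.g i j k := by
    intro k hk
    have h2 := h.g0 le_rfl zero_le_one hk
    rw [← e0] at h2
    exact h2
  have z2 : ∀ k ≤ n, |zs Q (pp D (D.ln ω) (t0 D J w ω)) k| ≤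
      bA K₂ n E / 2 ^ D.g (i + s) (j - r) k ∧
      |zs Q (pp D (D.ln ω') (t0 D J w ω)) k| ≤ bA K₂ n E / 2 ^ D.g (i + s) (j - r) k := by
    intro k hk
    have h2 := (h.gs le_rfl zero_le_one hk).1
    rw [← e0] at h2
    exact h2
  have h1 := core_two (sl := sl) (mv := mv) h.sy.hQ (h.vF l) (h.dF ln) h.B1 h.S'0 hδ0
    (fun α => sm_nat (h.sy.W0 l ln) h.SS α)
    (fun α hα ha hn => by
      rcases (hlv.sm (sl := sl) (mv := mv) h.S0 l1 ln (h.sy.W1 l ln)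
        (h.sy.W2 l ln) hα (fun k k1 kn hk => (hp k k1 kn hk).imp
          (pa_of h.hO h.hlam h.hC₁ h.hc h.nm l1 ln k1 kn) fun h5 => ⟨h5.1,
            pb_of h.hO h.hlam h.hC₁ h.hc h.nm l1 ln k1 kn h5.2⟩) ha hn) with h2 | h2
      · exact Or.inl (h2.mono h.Sp hδ0)
      · exact Or.inr h2)
    (x := pp D (D.ln ω) (t0 D J w ω)) (x' := pp D (D.ln ω') (t0 D J w ω))
    (y := pp D (D.ln ω) (t0 D J w ω + x * (1 / 2 ^ w)))
    (y' := pp D (D.ln ω') (t0 D J w ω + x * (1 / 2 ^ w)))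
    (fun k hk => (z1 k (by omega)).1) (fun k hk => (z1 k (by omega)).2)
    (fun k hk => (h.g0 x0 x1 (by omega)).1) (fun k hk => (h.g0 x0 x1 (by omega)).2)
    (h.c00 _) (h.c00 _)
    (fun k hk hs => h.sml (hs0 k hs) (by omega) (hsl k (hs0 k hs) (by omega) hs)
      (z2 k (by omega)).1)
    (fun k hk hs => h.sml (hs0 k hs) (by omega) (hsl k (hs0 k hs) (by omega) hs)
      (z2 k (by omega)).2)
    (fun k hk hs => h.sml (hs0 k hs) (by omega) (hsl k (hs0 k hs) (by omega) hs)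
      (h.gs x0 x1 (by omega)).1.1)
    (fun k hk hs => h.sml (hs0 k hs) (by omega) (hsl k (hs0 k hs) (by omega) hs)
      (h.gs x0 x1 (by omega)).1.2)
    (fun k hk k1 hk' => h.smv k1 (by omega) (hmv k k1 (by omega) hk')
      (h.gs x0 x1 (by omega)).2.1)
    (fun k hk k1 hk' => h.smv k1 (by omega) (hmv k k1 (by omega) hk')
      (h.gs x0 x1 (by omega)).2.2) l1 hl
  exact h1

end Pr2

end

end Pool.TC37L
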